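import Mathlib

set_option autoImplicit false

namespace Pool.Agent.Helper128.WMN

/-- locally nilpotent -/
def LocNil (G : Type) [Group G] : Prop :=
  ∀ s : Finset G, Group.IsNilpotent (Subgroup.closure (s : Set G))

/-- weak maximal condition for normal subgroups -/
def WeakMaxN (G : Type) [Group G] : Prop :=
  ∀ f : ℕ → Subgroup G, (∀ n, (f n).Normal) → Monotone f →
    ∃ n₀ : ℕ, ∀ n, n₀ ≤ n → ((f n).subgroupOf (f (n + 1))).index ≠ 0

/-- `ψ` commutes with conjugation by elements of `G` -/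
def Eqv {G : Type} [Group G] (A : Subgroup G) (ψ : A →* A) : Prop :=
  ∀ (g : G) (a b : A), (b : G) = g * a * g⁻¹ → (ψ b : G) = g * (ψ a) * g⁻¹


section b_quot


theorem locnil_quot (G : Type) [Group G] (h : LocNil G) (N : Subgroup G) [N.Normal] : LocNil (G ⧸ N) := by
  classical
  intro s
  let t : Finset G := s.image Quotient.out
  have hmap : (Subgroup.closure (t : Set G)).map (QuotientGroup.mk' N) =
      Subgroup.closure (s : Set (G ⧸ N)) := by
    rw [MonoidHom.map_closure]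
    congr 1
    ext x
    constructor
    · rintro ⟨y, hy, rfl⟩
      obtain ⟨z, hz, rfl⟩ := Finset.mem_image.1 (Finset.mem_coe.1 hy)
      have : (QuotientGroup.mk' N) (Quotient.out z) = z := QuotientGroup.out_eq' z
      rw [this]
      exact Finset.mem_coe.2 hz
    · intro hx
      exact ⟨Quotient.out x, Finset.mem_coe.2 (Finset.mem_image.2 ⟨x, Finset.mem_coe.1 hx, rfl⟩),
        QuotientGroup.out_eq' x⟩
  haveI := h t
  rw [← hmap]
  exact Group.nilpotent_of_surjective
    ((QuotientGroup.mk' N).subgroupMap (Subgroup.closure (t : Set G)))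
    (MonoidHom.subgroupMap_surjective _ _)

theorem wmn_quot (G : Type) [Group G] (h : WeakMaxN G) (N : Subgroup G) [N.Normal] : WeakMaxN (G ⧸ N) := by
  intro f hn hm
  obtain ⟨n₀, h0⟩ := h (fun n => (f n).comap (QuotientGroup.mk' N)) (fun n => (hn n).comap _)
    (fun a b hab => Subgroup.comap_mono (hm hab))
  refine ⟨n₀, fun n hn' => ?_⟩
  have := h0 n hn'
  change ((f n).comap (QuotientGroup.mk' N)).relIndex
    ((f (n+1)).comap (QuotientGroup.mk' N)) ≠ 0 at this
  rw [Subgroup.relIndex_comap,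
    Subgroup.map_comap_eq_self_of_surjective (QuotientGroup.mk'_surjective N)] at this
  exact this


end b_quot

section b_fin


open scoped commutatorElement in
theorem exists_central {K : Type} [Group K] (hK : Group.IsNilpotent K) (N : Subgroup K)
    (hN : N.Normal) (hne : N ≠ ⊥) : ∃ x ∈ N, x ≠ 1 ∧ ∀ k : K, x * k = k * x := by
  classical
  obtain ⟨n, hn⟩ := hK.nilpotent'
  have hex : ∃ n, N ⊓ Subgroup.upperCentralSeries K n ≠ ⊥ := ⟨n, by rw [hn, inf_top_eq]; exact hne⟩
  have hspec := Nat.find_spec hex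
  have hmin : ∀ m < Nat.find hex, N ⊓ Subgroup.upperCentralSeries K m = ⊥ := fun m hm => by
    have := Nat.find_min hex hm
    simpa using this
  rcases hm : Nat.find hex with _ | m
  · rw [hm] at hspec
    simp at hspec
  · rw [hm] at hspec
    have hbot := hmin m (by omega)
    rw [Subgroup.ne_bot_iff_exists_ne_one] at hspec
    obtain ⟨⟨x, hxN, hxZ⟩, hx1⟩ := hspec
    refine ⟨x, hxN, fun h => hx1 (by ext; exact h), fun k => ?_⟩
    have h1 : ⁅x, k⁆ ∈ Subgroup.upperCentralSeries K m :=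
      Subgroup.mem_upperCentralSeries_succ_iff.mp hxZ k
    have h2 : ⁅x, k⁆ ∈ N := by
      rw [commutatorElement_def]
      have : x * k * x⁻¹ * k⁻¹ = x * (k * x⁻¹ * k⁻¹) := by group
      rw [this]
      exact N.mul_mem hxN (hN.conj_mem _ (N.inv_mem hxN) k)
    have h3 : ⁅x, k⁆ ∈ N ⊓ Subgroup.upperCentralSeries K m := ⟨h2, h1⟩
    rw [hbot, Subgroup.mem_bot] at h3
    exact commutatorElement_eq_one_iff_mul_comm.mp h3

theorem finite_normal (G : Type) [Group G] (h : LocNil G) (hZ : Subgroup.center G = ⊥) (F : Subgroup G)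
    (hF : F.Normal) (hfin : Finite F) : F = ⊥ := by
  classical
  by_contra hne
  have hfa : Finite (MulAut F) := Finite.of_injective (fun e : MulAut F => (e : F → F))
    (fun a b hab => MulEquiv.ext fun x => congrFun hab x)
  set φ : G →* MulAut F := MulAut.conjNormal with hφ
  have hfr : Finite φ.range := inferInstance
  have hfi : φ.ker.FiniteIndex := Subgroup.finiteIndex_ker φ
  have hcomm : ∀ c ∈ φ.ker, ∀ x ∈ F, x * c = c * x := by
    intro c hc x hx
    have h1 : φ c = 1 := hc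
    have h2 : ((φ c ⟨x, hx⟩ : F) : G) = c * x * c⁻¹ := MulAut.conjNormal_apply c ⟨x, hx⟩
    rw [h1] at h2
    have h3 : x = c * x * c⁻¹ := h2
    calc x * c = (c * x * c⁻¹) * c := by rw [← h3]
      _ = c * x := by group
  haveI : Fintype (G ⧸ φ.ker) := Fintype.ofFinite _
  haveI : Fintype F := Fintype.ofFinite _
  let s : Finset G := (Finset.univ.image (fun x : F => (x : G))) ∪
    (Finset.univ.image (fun q : G ⧸ φ.ker => q.out))
  have hK := h s
  have hFs : ∀ x ∈ F, x ∈ Subgroup.closure (s : Set G) := by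
    intro x hx
    apply Subgroup.subset_closure
    simp only [s, Finset.coe_union, Finset.coe_image, Finset.coe_univ, Set.image_univ]
    left
    exact ⟨⟨x, hx⟩, rfl⟩
  have hqs : ∀ q : G ⧸ φ.ker, q.out ∈ Subgroup.closure (s : Set G) := by
    intro q
    apply Subgroup.subset_closure
    simp only [s, Finset.coe_union, Finset.coe_image, Finset.coe_univ, Set.image_univ]
    right
    exact ⟨q, rfl⟩
  obtain ⟨⟨y, hyF⟩, hy1⟩ := (Subgroup.ne_bot_iff_exists_ne_one).mp hne
  have hNne : F.subgroupOf (Subgroup.closure (s : Set G)) ≠ ⊥ := by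
    intro hb
    have hmem : (⟨y, hFs y hyF⟩ : Subgroup.closure (s : Set G)) ∈ F.subgroupOf (Subgroup.closure (s : Set G)) :=
      hyF
    rw [hb, Subgroup.mem_bot] at hmem
    apply hy1
    ext
    exact congrArg (fun z : Subgroup.closure (s : Set G) => (z : G)) hmem
  obtain ⟨⟨z, hzK⟩, hzN, hz1, hzc⟩ := exists_central hK _ (hF.subgroupOf _) hNne
  have hzF : z ∈ F := hzN
  have hz1' : z ≠ 1 := fun e => hz1 (by ext; exact e)
  have hzcen : z ∈ Subgroup.center G := by
    rw [Subgroup.mem_center_iff]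
    intro g
    obtain ⟨c, hc⟩ := QuotientGroup.mk_out_eq_mul φ.ker g
    have hg : g = (g : G ⧸ φ.ker).out * (c : G)⁻¹ := by
      rw [hc]; group
    have h1 : z * (g : G ⧸ φ.ker).out = (g : G ⧸ φ.ker).out * z := by
      have := hzc ⟨_, hqs (g : G ⧸ φ.ker)⟩
      exact congrArg (fun z : Subgroup.closure (s : Set G) => (z : G)) this
    have h2 : z * (c : G)⁻¹ = (c : G)⁻¹ * z := hcomm _ (φ.ker.inv_mem c.2) z hzF
    rw [hg, mul_assoc, ← h2, ← mul_assoc, ← h1, mul_assoc]
  rw [hZ, Subgroup.mem_bot] at hzcen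
  exact hz1' hzcen


end b_fin

section b_step


theorem stepA (G : Type) [Group G] (hL : LocNil G)
    (hfin : ∀ F : Subgroup G, F.Normal → Finite F → F = ⊥) (A : Subgroup G) (hA : A.Normal)
    (hab : ∀ a ∈ A, ∀ b ∈ A, a * b = b * a)
    (hcent : ∀ B : Subgroup G, B.Normal → B ≤ A → B ≠ ⊥ → ∃ w : G, (∃ b ∈ B, w * b ≠ b * w) ∧
      ∀ g : G, ∀ b ∈ B, (w * g * w⁻¹ * g⁻¹) * b = b * (w * g * w⁻¹ * g⁻¹))
    (ψ : A →* A) (hψ : Eqv A ψ) (hne : ∃ a, ψ a ≠ 1) :
    ∃ ψ' : A →* A, Eqv A ψ' ∧ (∃ a, ψ' a ≠ 1) ∧ ψ.ker ≤ ψ'.ker ∧ ψ.ker.relIndex ψ'.ker = 0 := by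
  classical
  set B : Subgroup G := ψ.range.map A.subtype with hBdef
  have hBmem : ∀ x : G, x ∈ B ↔ ∃ a : A, (ψ a : G) = x := by
    intro x
    rw [hBdef, Subgroup.mem_map]
    constructor
    · rintro ⟨y, ⟨a, rfl⟩, rfl⟩
      exact ⟨a, rfl⟩
    · rintro ⟨a, rfl⟩
      exact ⟨ψ a, ⟨a, rfl⟩, rfl⟩
  have conjA : ∀ (g : G) (a : A), ∃ b : A, (b : G) = g * a * g⁻¹ :=
    fun g a => ⟨⟨g * a * g⁻¹, hA.conj_mem a a.2 g⟩, rfl⟩
  have hBn : B.Normal := by
    constructor
    intro x hx g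
    obtain ⟨a, rfl⟩ := (hBmem x).1 hx
    obtain ⟨b, hb⟩ := conjA g a
    exact (hBmem _).2 ⟨b, hψ g a b hb⟩
  have hBA : B ≤ A := by
    intro x hx
    obtain ⟨a, rfl⟩ := (hBmem x).1 hx
    exact (ψ a).2
  have hB0 : B ≠ ⊥ := by
    intro h
    obtain ⟨a, ha⟩ := hne
    have h1 : (ψ a : G) ∈ B := (hBmem _).2 ⟨a, rfl⟩
    rw [h, Subgroup.mem_bot] at h1
    exact ha (Subtype.ext h1)
  obtain ⟨w, ⟨b0, hb0, hwb0⟩, hw⟩ := hcent B hBn hBA hB0
  have hmemA : ∀ x : G, x ∈ A → w * x * w⁻¹ * x⁻¹ ∈ A := fun x hx =>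
    A.mul_mem (hA.conj_mem x hx w) (A.inv_mem hx)
  let ψ' : A →* A :=
    { toFun := fun a => ⟨w * (ψ a : G) * w⁻¹ * (ψ a : G)⁻¹, hmemA _ (ψ a).2⟩
      map_one' := by
        apply Subtype.ext
        simp
      map_mul' := by
        intro a b
        apply Subtype.ext
        have e1 : (ψ (a * b) : G) = (ψ a : G) * (ψ b : G) := by rw [map_mul]; rfl
        simp only [Subgroup.coe_mul, e1]
        have hx := (ψ a).2
        have hy := (ψ b).2
        generalize (ψ a : G) = x at *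
        generalize (ψ b : G) = y at *
        have hyw : w * y * w⁻¹ ∈ A := hA.conj_mem y hy w
        have hxi : x⁻¹ ∈ A := A.inv_mem hx
        have hyi : y⁻¹ ∈ A := A.inv_mem hy
        have c1 : (w * y * w⁻¹ * y⁻¹) * x⁻¹ = x⁻¹ * (w * y * w⁻¹ * y⁻¹) :=
          hab _ (A.mul_mem hyw hyi) _ hxi
        calc w * (x * y) * w⁻¹ * (x * y)⁻¹ = w * x * w⁻¹ * ((w * y * w⁻¹ * y⁻¹) * x⁻¹) := by group
          _ = w * x * w⁻¹ * (x⁻¹ * (w * y * w⁻¹ * y⁻¹)) := by rw [c1]
          _ = _ := by group }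
  have hψ'v : ∀ a : A, ((ψ' a : A) : G) = w * (ψ a : G) * w⁻¹ * (ψ a : G)⁻¹ := fun a => rfl
  have hEq' : Eqv A ψ' := by
    intro g a b hb
    have h1 := hψ g a b hb
    rw [hψ'v, hψ'v, h1]
    have hx : (ψ a : G) ∈ B := (hBmem _).2 ⟨a, rfl⟩
    generalize (ψ a : G) = x at *
    have hy : (g * w) * x * (g * w)⁻¹ ∈ B := hBn.conj_mem x hx (g * w)
    have h2 := hw g _ hy
    calc w * (g * x * g⁻¹) * w⁻¹ * (g * x * g⁻¹)⁻¹
        = (w * g * w⁻¹ * g⁻¹) * ((g * w) * x * (g * w)⁻¹) * (w * g * w⁻¹ * g⁻¹)⁻¹ * (g * x * g⁻¹)⁻¹ := by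
          group
      _ = ((g * w) * x * (g * w)⁻¹) * (w * g * w⁻¹ * g⁻¹) * (w * g * w⁻¹ * g⁻¹)⁻¹ * (g * x * g⁻¹)⁻¹ := by
          rw [h2]
      _ = g * (w * x * w⁻¹ * x⁻¹) * g⁻¹ := by group
  have hne' : ∃ a, ψ' a ≠ 1 := by
    obtain ⟨a, ha⟩ := (hBmem b0).1 hb0
    refine ⟨a, fun h => hwb0 ?_⟩
    have h1 : w * (ψ a : G) * w⁻¹ * (ψ a : G)⁻¹ = 1 := by
      rw [← hψ'v, h]; rfl
    rw [ha] at h1
    have h2 : w * b0 * w⁻¹ = b0 := mul_inv_eq_one.1 h1
    exact mul_inv_eq_iff_eq_mul.1 h2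
  have hker : ψ.ker ≤ ψ'.ker := by
    intro a ha
    rw [MonoidHom.mem_ker] at ha ⊢
    apply Subtype.ext
    rw [hψ'v, ha]
    simp
  refine ⟨ψ', hEq', hne', hker, ?_⟩
  by_contra hrel
  rw [Subgroup.relIndex_ker] at hrel
  have hfinK : Finite (ψ'.ker.map ψ) := Nat.finite_of_card_ne_zero hrel
  set K : Subgroup G := (ψ'.ker.map ψ).map A.subtype with hK
  have hKmem : ∀ x : G, x ∈ K ↔ ∃ a : A, ψ' a = 1 ∧ (ψ a : G) = x := by
    intro x
    rw [hK, Subgroup.mem_map]
    constructor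
    · rintro ⟨y, hy, rfl⟩
      rw [Subgroup.mem_map] at hy
      obtain ⟨a, ha, rfl⟩ := hy
      exact ⟨a, ha, rfl⟩
    · rintro ⟨a, ha, rfl⟩
      exact ⟨ψ a, Subgroup.mem_map.2 ⟨a, ha, rfl⟩, rfl⟩
  have hKn : K.Normal := by
    constructor
    intro x hx g
    obtain ⟨a, ha, rfl⟩ := (hKmem x).1 hx
    obtain ⟨b, hb⟩ := conjA g a
    refine (hKmem _).2 ⟨b, ?_, hψ g a b hb⟩
    apply Subtype.ext
    rw [hEq' g a b hb, ha]
    simp
  have hKfin : Finite K := by
    have : Finite ((A.subtype) '' ((ψ'.ker.map ψ : Subgroup A) : Set A)) :=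
      Set.Finite.to_subtype ((Set.toFinite _).image _)
    exact this
  have hKbot := hfin K hKn hKfin
  -- iterate
  let it : ℕ → G := fun n => Nat.rec b0 (fun _ x => w * x * w⁻¹ * x⁻¹) n
  have it0 : it 0 = b0 := rfl
  have its : ∀ n, it (n + 1) = w * it n * w⁻¹ * (it n)⁻¹ := fun n => rfl
  have hitB : ∀ n, it n ∈ B := by
    intro n
    induction n with
    | zero => exact hb0
    | succ n ih =>
      rw [its]
      exact B.mul_mem (hBn.conj_mem _ ih w) (B.inv_mem ih)
  have hit1 : ∀ n, it n ≠ 1 := by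
    intro n
    induction n with
    | zero =>
      intro h
      rw [it0] at h
      apply hwb0
      rw [h]
      simp
    | succ n ih =>
      intro h
      apply ih
      obtain ⟨a, ha⟩ := (hBmem _).1 (hitB n)
      have h1 : it n ∈ K := by
        refine (hKmem _).2 ⟨a, ?_, ha⟩
        apply Subtype.ext
        rw [hψ'v, ha, ← its, h]
        rfl
      rw [hKbot, Subgroup.mem_bot] at h1
      exact h1
  have hnil := hL {b0, w}
  rw [Subgroup.isNilpotent_iff_lowerCentralSeries] at hnil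
  obtain ⟨N, hN⟩ := hnil
  set H : Subgroup G := Subgroup.closure ((({b0, w} : Finset G)) : Set G) with hH
  have hwH : w ∈ H := Subgroup.subset_closure (by simp)
  have hbH : b0 ∈ H := Subgroup.subset_closure (by simp)
  have hlcs : ∀ n, it n ∈ H.lowerCentralSeries n := by
    intro n
    induction n with
    | zero => exact hbH
    | succ n ih =>
      rw [its, Subgroup.lowerCentralSeries_succ]
      have h1 := Subgroup.commutator_mem_commutator ih hwH
      have h2 := Subgroup.inv_mem _ h1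
      rw [commutatorElement_inv, commutatorElement_def] at h2
      exact h2
  have := hlcs N
  rw [hN, Subgroup.mem_bot] at this
  exact hit1 N this


end b_step

section b_chain


theorem chainA (G : Type) [Group G] (hW : WeakMaxN G) (A : Subgroup G) (hA : A.Normal) (hne : A ≠ ⊥)
    (hstep : ∀ ψ : A →* A, Eqv A ψ → (∃ a, ψ a ≠ 1) →
      ∃ ψ' : A →* A, Eqv A ψ' ∧ (∃ a, ψ' a ≠ 1) ∧ ψ.ker ≤ ψ'.ker ∧ ψ.ker.relIndex ψ'.ker = 0) : False := by
  classical
  have hF : ∀ t : {ψ : A →* A // Eqv A ψ ∧ ∃ a, ψ a ≠ 1},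
      ∃ t' : {ψ : A →* A // Eqv A ψ ∧ ∃ a, ψ a ≠ 1},
        t.1.ker ≤ t'.1.ker ∧ t.1.ker.relIndex t'.1.ker = 0 := by
    rintro ⟨ψ, h1, h2⟩
    obtain ⟨ψ', h3, h4, h5, h6⟩ := hstep ψ h1 h2
    exact ⟨⟨ψ', h3, h4⟩, h5, h6⟩
  choose F hF1 hF2 using hF
  have h0 : Eqv A (MonoidHom.id A) ∧ ∃ a, (MonoidHom.id A) a ≠ 1 := by
    refine ⟨fun g a b h => h, ?_⟩
    obtain ⟨a, ha⟩ := Subgroup.ne_bot_iff_exists_ne_one.1 hne
    exact ⟨a, ha⟩
  let sq : ℕ → {ψ : A →* A // Eqv A ψ ∧ ∃ a, ψ a ≠ 1} := fun n => Nat.rec ⟨MonoidHom.id A, h0⟩ (fun _ t => F t) n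
  have hsq : ∀ n, sq (n + 1) = F (sq n) := fun n => rfl
  obtain ⟨n₀, hn⟩ := hW (fun n => (sq n).1.ker.map A.subtype) (by
    intro n
    refine ⟨?_⟩
    intro x hx g
    obtain ⟨a, ha, rfl⟩ := Subgroup.mem_map.1 hx
    have hb : g * (a : G) * g⁻¹ ∈ A := hA.conj_mem _ a.2 g
    refine Subgroup.mem_map.2 ⟨⟨g * (a : G) * g⁻¹, hb⟩, ?_, rfl⟩
    rw [MonoidHom.mem_ker] at ha ⊢
    have h1 := (sq n).2.1 g a ⟨g * (a : G) * g⁻¹, hb⟩ rfl
    rw [ha] at h1
    apply Subtype.ext
    rw [h1]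
    simp) (by
    refine monotone_nat_of_le_succ fun n => ?_
    apply Subgroup.map_mono
    rw [hsq]
    exact hF1 (sq n))
  apply hn n₀ le_rfl
  show ((sq n₀).1.ker.map A.subtype).relIndex ((sq (n₀ + 1)).1.ker.map A.subtype) = 0
  rw [Subgroup.relIndex_map_map_of_injective _ _ A.subtype_injective, hsq]
  exact hF2 (sq n₀)


end b_chain

section b_A1


theorem A1 (G : Type) [Group G] (hZ : Subgroup.center G = ⊥) (A : Subgroup G) (hA : A.Normal)
    (hab : ∀ a ∈ A, ∀ b ∈ A, a * b = b * a)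
    (hkey : ¬ ∀ B : Subgroup G, B.Normal → B ≤ A → B ≠ ⊥ → ∃ w : G, (∃ b ∈ B, w * b ≠ b * w) ∧
      ∀ g : G, ∀ b ∈ B, (w * g * w⁻¹ * g⁻¹) * b = b * (w * g * w⁻¹ * g⁻¹)) :
    ∃ C : Subgroup G, ∃ _ : C.Normal, A ≤ C ∧ C ≠ ⊤ ∧ Subgroup.center (G ⧸ C) = ⊥ := by
  push Not at hkey
  obtain ⟨B, hBn, hBA, hB, hw⟩ := hkey
  have hmem : ∀ x : G, x ∈ Subgroup.centralizer (B : Set G) ↔ ∀ b ∈ B, b * x = x * b := by
    intro x
    rw [Subgroup.mem_centralizer_iff]
    rfl
  have hCn : (Subgroup.centralizer (B : Set G)).Normal := by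
    refine ⟨fun n hn g => ?_⟩
    rw [hmem] at hn ⊢
    intro b hb
    have h1 := hn (g⁻¹ * b * g) (by
      have := hBn.conj_mem b hb g⁻¹
      simpa using this)
    calc b * (g * n * g⁻¹) = g * ((g⁻¹ * b * g) * n) * g⁻¹ := by group
      _ = g * (n * (g⁻¹ * b * g)) * g⁻¹ := by rw [h1]
      _ = g * n * g⁻¹ * b := by group
  refine ⟨Subgroup.centralizer (B : Set G), hCn, ?_, ?_, ?_⟩
  · intro a ha
    rw [hmem]
    intro b hb
    exact hab b (hBA hb) a ha
  · intro htop
    apply hB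
    rw [eq_bot_iff, ← hZ]
    intro b hb
    rw [Subgroup.mem_center_iff]
    intro g
    have : g ∈ Subgroup.centralizer (B : Set G) := by rw [htop]; trivial
    rw [hmem] at this
    exact (this b hb).symm
  · rw [eq_bot_iff]
    intro q hq
    obtain ⟨w, rfl⟩ := QuotientGroup.mk_surjective q
    rw [Subgroup.mem_bot, QuotientGroup.eq_one_iff]
    by_contra hwc
    rw [hmem] at hwc
    push Not at hwc
    obtain ⟨b, hb, hbw⟩ := hwc
    obtain ⟨g, b', hb', hne⟩ := hw w ⟨b, hb, fun h => hbw h.symm⟩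
    apply hne
    rw [Subgroup.mem_center_iff] at hq
    have h1 := hq (QuotientGroup.mk g)
    rw [← QuotientGroup.mk_mul, ← QuotientGroup.mk_mul] at h1
    have h2 : (QuotientGroup.mk (w * g * w⁻¹ * g⁻¹) : G ⧸ Subgroup.centralizer (B : Set G)) = 1 := by
      have : w * g * w⁻¹ * g⁻¹ = (w * g) * (g * w)⁻¹ := by group
      rw [this, QuotientGroup.mk_mul, QuotientGroup.mk_inv, h1]
      simp
    rw [QuotientGroup.eq_one_iff, hmem] at h2
    exact (h2 b' hb').symm


end b_A1

section b_A2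


theorem cl_iff_34047 {G : Type} [Group G] (N : Subgroup G) [N.Normal] :
    Subgroup.center (G ⧸ N) = ⊥ ↔ ∀ g : G, (∀ h : G, g * h * g⁻¹ * h⁻¹ ∈ N) → g ∈ N := by
  constructor
  · intro hc g hg
    have h1 : (QuotientGroup.mk g : G ⧸ N) ∈ Subgroup.center (G ⧸ N) := by
      rw [Subgroup.mem_center_iff]
      intro x
      obtain ⟨h, rfl⟩ := QuotientGroup.mk_surjective x
      have h2 : (QuotientGroup.mk (g * h * g⁻¹ * h⁻¹) : G ⧸ N) = 1 :=
        (QuotientGroup.eq_one_iff _).2 (hg h)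
      rw [QuotientGroup.mk_mul, QuotientGroup.mk_mul, QuotientGroup.mk_mul, QuotientGroup.mk_inv,
        QuotientGroup.mk_inv] at h2
      have h3 := mul_inv_eq_one.1 h2
      exact (mul_inv_eq_iff_eq_mul.1 h3).symm
    rw [hc, Subgroup.mem_bot] at h1
    exact (QuotientGroup.eq_one_iff _).1 h1
  · intro hN
    rw [eq_bot_iff]
    intro x hx
    obtain ⟨g, rfl⟩ := QuotientGroup.mk_surjective x
    rw [Subgroup.mem_bot]
    apply (QuotientGroup.eq_one_iff _).2
    apply hN
    intro h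
    apply (QuotientGroup.eq_one_iff _).1
    rw [QuotientGroup.mk_mul, QuotientGroup.mk_mul, QuotientGroup.mk_mul, QuotientGroup.mk_inv,
      QuotientGroup.mk_inv]
    rw [Subgroup.mem_center_iff] at hx
    rw [← hx (QuotientGroup.mk h)]
    group

theorem A2
    (hq : ∀ (G : Type) [Group G], LocNil G → WeakMaxN G → ∀ (N : Subgroup G) [N.Normal],
      LocNil (G ⧸ N) ∧ WeakMaxN (G ⧸ N))
    (hA1 : ∀ (G : Type) [Group G], LocNil G → WeakMaxN G → Subgroup.center G = ⊥ → ∀ A : Subgroup G,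
      A.Normal → (∀ a ∈ A, ∀ b ∈ A, a * b = b * a) → A ≠ ⊥ →
      ∃ C : Subgroup G, ∃ _ : C.Normal, A ≤ C ∧ C ≠ ⊤ ∧ Subgroup.center (G ⧸ C) = ⊥)
    (hfin : ∀ (G : Type) [Group G], LocNil G → Subgroup.center G = ⊥ → ∀ F : Subgroup G, F.Normal →
      Finite F → F = ⊥)
    (G : Type) [Group G] [Nontrivial G] (hL : LocNil G) (hW : WeakMaxN G) (hZ : Subgroup.center G = ⊥) :
    ∃ N : Subgroup G, ∃ _ : N.Normal, N ≠ ⊤ ∧ Subgroup.center (G ⧸ N) = ⊥ ∧
      ∀ A : Subgroup (G ⧸ N), A.Normal → (∀ a ∈ A, ∀ b ∈ A, a * b = b * a) → A = ⊥ := by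
  by_contra hcon
  push Not at hcon
  let Good : Subgroup G → Prop := fun N => N.Normal ∧ N ≠ ⊤ ∧
    ∀ g : G, (∀ h : G, g * h * g⁻¹ * h⁻¹ ∈ N) → g ∈ N
  have step : ∀ N : Subgroup G, Good N → ∃ N' : Subgroup G, Good N' ∧ N ≤ N' ∧
      (N.subgroupOf N').index = 0 := by
    rintro N ⟨hNn, hNt, hNc⟩
    have hcN : Subgroup.center (G ⧸ N) = ⊥ := (cl_iff_34047 N).2 hNc
    obtain ⟨A, hAn, hAa, hAb⟩ := hcon N hNn hNt hcN
    obtain ⟨hLQ, hWQ⟩ := hq G hL hW N
    obtain ⟨C, hCn, hAC, hCt, hCc⟩ := hA1 (G ⧸ N) hLQ hWQ hcN A hAn hAa hAb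
    have hCcl := (cl_iff_34047 C).1 hCc
    have hsurj : Function.Surjective (QuotientGroup.mk' N) := QuotientGroup.mk'_surjective N
    have hmap : (C.comap (QuotientGroup.mk' N)).map (QuotientGroup.mk' N) = C :=
      Subgroup.map_comap_eq_self_of_surjective hsurj C
    refine ⟨C.comap (QuotientGroup.mk' N), ⟨hCn.comap _, ?_, ?_⟩, ?_, ?_⟩
    · intro htop
      apply hCt
      rw [← hmap, htop, Subgroup.map_top_of_surjective _ hsurj]
    · intro g hg
      rw [Subgroup.mem_comap]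
      apply hCcl
      intro x
      obtain ⟨h, rfl⟩ := hsurj x
      have := hg h
      rw [Subgroup.mem_comap, map_mul, map_mul, map_mul, map_inv, map_inv] at this
      exact this
    · intro g hg
      rw [Subgroup.mem_comap]
      have : QuotientGroup.mk' N g = 1 := (QuotientGroup.eq_one_iff g).2 hg
      rw [this]
      exact C.one_mem
    · by_contra hidx
      have h1 : (QuotientGroup.mk' N).ker.relIndex (C.comap (QuotientGroup.mk' N)) =
          Nat.card ((C.comap (QuotientGroup.mk' N)).map (QuotientGroup.mk' N)) :=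
        Subgroup.relIndex_ker _ _
      rw [QuotientGroup.ker_mk', hmap] at h1
      have h2 : Nat.card C ≠ 0 := by
        rw [← h1]
        exact hidx
      haveI : Finite C := Nat.finite_of_card_ne_zero h2
      have hAf : Finite A := Finite.of_injective (Subgroup.inclusion hAC)
        (Subgroup.inclusion_injective hAC)
      exact hAb (hfin (G ⧸ N) hLQ hcN A hAn hAf)
  have hbot : Good ⊥ := by
    refine ⟨inferInstance, bot_ne_top, ?_⟩
    intro g hg
    rw [Subgroup.mem_bot]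
    have h1 : g ∈ Subgroup.center G := by
      rw [Subgroup.mem_center_iff]
      intro h
      have h2 := hg h
      rw [Subgroup.mem_bot] at h2
      have h3 := mul_inv_eq_one.1 h2
      exact (mul_inv_eq_iff_eq_mul.1 h3).symm
    rw [hZ, Subgroup.mem_bot] at h1
    exact h1
  let nxt : {N : Subgroup G // Good N} → {N : Subgroup G // Good N} := fun N =>
    ⟨Classical.choose (step N.1 N.2), (Classical.choose_spec (step N.1 N.2)).1⟩
  let f : ℕ → {N : Subgroup G // Good N} := fun n => nxt^[n] ⟨⊥, hbot⟩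
  have hf : ∀ n, f (n + 1) = nxt (f n) := fun n => Function.iterate_succ_apply' nxt n _
  have hle : ∀ n, (f n).1 ≤ (f (n + 1)).1 := by
    intro n
    rw [hf]
    exact (Classical.choose_spec (step (f n).1 (f n).2)).2.1
  have hidx : ∀ n, ((f n).1.subgroupOf (f (n + 1)).1).index = 0 := by
    intro n
    rw [hf]
    exact (Classical.choose_spec (step (f n).1 (f n).2)).2.2
  obtain ⟨n₀, hn₀⟩ := hW (fun n => (f n).1) (fun n => (f n).2.1) (monotone_nat_of_le_succ hle)
  exact hn₀ n₀ le_rfl (hidx n₀)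


end b_A2

section b_nfg


theorem exists_nfg (G : Type) [Group G] (hW : WeakMaxN G) (M : Subgroup G) (hM : M.Normal) :
    ∃ s : Finset G, (s : Set G) ⊆ M ∧ ∀ y ∈ M, (Subgroup.normalClosure (s : Set G)).relIndex
      (Subgroup.normalClosure (s : Set G) ⊔ Subgroup.normalClosure {y}) ≠ 0 := by
  classical
  by_contra hcon
  push Not at hcon
  have key : ∀ s : {s : Finset G // (s : Set G) ⊆ M}, ∃ t : {s : Finset G // (s : Set G) ⊆ M},
      Subgroup.normalClosure (s.1 : Set G) ≤ Subgroup.normalClosure (t.1 : Set G) ∧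
      (Subgroup.normalClosure (s.1 : Set G)).relIndex
        (Subgroup.normalClosure (t.1 : Set G)) = 0 := by
    rintro ⟨s, hs⟩
    obtain ⟨y, hy, h0⟩ := hcon s hs
    refine ⟨⟨insert y s, ?_⟩, ?_, ?_⟩
    · rw [Finset.coe_insert]
      exact Set.insert_subset hy hs
    · apply Subgroup.normalClosure_mono
      rw [Finset.coe_insert]
      exact Set.subset_insert y _
    · have h1 : Subgroup.normalClosure ((insert y s : Finset G) : Set G) =
          Subgroup.normalClosure (s : Set G) ⊔ Subgroup.normalClosure {y} := by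
        rw [Finset.coe_insert]
        apply le_antisymm
        · apply Subgroup.normalClosure_le_normal
          intro z hz
          rcases Set.mem_insert_iff.1 hz with rfl | hz
          · exact Subgroup.mem_sup_right (Subgroup.subset_normalClosure (Set.mem_singleton _))
          · exact Subgroup.mem_sup_left (Subgroup.subset_normalClosure hz)
        · apply sup_le
          · exact Subgroup.normalClosure_mono (Set.subset_insert y _)
          · exact Subgroup.normalClosure_mono (by simp)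
      show (Subgroup.normalClosure (s : Set G)).relIndex
        (Subgroup.normalClosure ((insert y s : Finset G) : Set G)) = 0
      rw [h1]
      exact h0
  choose F hF1 hF2 using key
  let S : ℕ → {s : Finset G // (s : Set G) ⊆ M} := fun n =>
    Nat.rec ⟨∅, by simp⟩ (fun _ s => F s) n
  have hS : ∀ n, S (n+1) = F (S n) := fun n => rfl
  obtain ⟨n₀, hn⟩ := hW (fun n => Subgroup.normalClosure ((S n).1 : Set G))
    (fun n => Subgroup.normalClosure_normal) (monotone_nat_of_le_succ fun n => by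
      rw [hS]
      exact hF1 _)
  have h := hn n₀ le_rfl
  apply h
  have h2 := hF2 (S n₀)
  rw [← hS] at h2
  exact h2


end b_nfg

section b_sec


theorem section_central (G : Type) [Group G] (U V : Subgroup G) (hU : U.Normal) (hV : V.Normal) (h : U ≤ V)
    (hfin : U.relIndex V ≠ 0) (R : Subgroup G)
    (hR : ∀ N : Subgroup G, N.Normal → N.index ≠ 0 → R ≤ N) :
    ∀ v ∈ V, ∀ r ∈ R, v * r * v⁻¹ * r⁻¹ ∈ U := by
  intro v hv r hr
  have hn : (V.map (QuotientGroup.mk' U)).Normal := hV.map _ (QuotientGroup.mk'_surjective U)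
  have hcard : Nat.card (V.map (QuotientGroup.mk' U)) ≠ 0 := by
    have h1 := Subgroup.relIndex_ker V (QuotientGroup.mk' U)
    rw [QuotientGroup.ker_mk'] at h1
    rw [← h1]; exact hfin
  haveI : Finite (V.map (QuotientGroup.mk' U)) := (Nat.finite_of_card_ne_zero hcard)
  let f : G →* MulAut (V.map (QuotientGroup.mk' U)) := (MulAut.conjNormal).comp (QuotientGroup.mk' U)
  haveI : Finite (MulAut (V.map (QuotientGroup.mk' U))) :=
    Finite.of_injective (fun e : MulAut (V.map (QuotientGroup.mk' U)) => (e : (V.map (QuotientGroup.mk' U)) → (V.map (QuotientGroup.mk' U)))) (by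
      intro a b hab
      exact DFunLike.coe_injective hab)
  have hidx : f.ker.index ≠ 0 := by
    have : f.ker.FiniteIndex := Subgroup.finiteIndex_ker f
    exact this.index_ne_zero
  have hrk : r ∈ f.ker := hR f.ker inferInstance hidx hr
  have hr1 : f r = 1 := hrk
  have hvm : QuotientGroup.mk' U v ∈ V.map (QuotientGroup.mk' U) := Subgroup.mem_map_of_mem _ hv
  have h2 : ((f r) ⟨QuotientGroup.mk' U v, hvm⟩ : G ⧸ U) = QuotientGroup.mk' U v := by
    rw [hr1]; rfl
  have h3 : ((f r) ⟨QuotientGroup.mk' U v, hvm⟩ : G ⧸ U) = (QuotientGroup.mk' U r) * (QuotientGroup.mk' U v) * (QuotientGroup.mk' U r)⁻¹ := by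
    simp only [f, MonoidHom.comp_apply]
    exact MulAut.conjNormal_apply _ _
  rw [h3] at h2
  have h4 : QuotientGroup.mk' U (v * r * v⁻¹ * r⁻¹) = 1 := by
    rw [map_mul, map_mul, map_mul, map_inv, map_inv]
    have h5 : (QuotientGroup.mk' U r) * (QuotientGroup.mk' U v) = (QuotientGroup.mk' U v) * (QuotientGroup.mk' U r) := by
      rw [mul_inv_eq_iff_eq_mul] at h2
      exact h2
    rw [← h5]
    group
  have := (QuotientGroup.eq_one_iff (N := U) (v * r * v⁻¹ * r⁻¹)).1 h4
  exact this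


end b_sec

section b_nfgcomm



def YYa {G : Type} [Group G] (s t : Set G) : Subgroup G :=
  Subgroup.closure {z | ∃ k ∈ Subgroup.closure t, ∃ x ∈ s, z = k * x * k⁻¹}

def DDa {G : Type} [Group G] (s t : Set G) : Subgroup G := ⁅YYa s t, Subgroup.closure t⁆

theorem YYa_mono {G : Type} [Group G] {s t t' : Set G} (h : t ⊆ t') : YYa s t ≤ YYa s t' := by
  apply Subgroup.closure_mono
  rintro z ⟨k, hk, x, hx, rfl⟩
  exact ⟨k, Subgroup.closure_mono h hk, x, hx, rfl⟩

theorem DDa_mono {G : Type} [Group G] {s t t' : Set G} (h : t ⊆ t') : DDa s t ≤ DDa s t' :=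
  Subgroup.commutator_mono (YYa_mono h) (Subgroup.closure_mono h)

theorem cl1a {G : Type} [Group G] (s : Finset G) (y : G) (hy : y ∈ Subgroup.normalClosure (s : Set G)) :
    ∃ t : Finset G, y ∈ YYa (s : Set G) (t : Set G) := by
  classical
  unfold Subgroup.normalClosure at hy
  induction hy using Subgroup.closure_induction with
  | mem x hx =>
    rw [Group.mem_conjugatesOfSet_iff] at hx
    obtain ⟨a, ha, hc⟩ := hx
    rw [isConj_iff] at hc
    obtain ⟨c, hc⟩ := hc
    exact ⟨{c}, Subgroup.subset_closure ⟨c, Subgroup.subset_closure (by simp), a, ha, hc.symm⟩⟩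
  | one => exact ⟨∅, one_mem _⟩
  | mul x y _ _ hx hy =>
    obtain ⟨t, ht⟩ := hx
    obtain ⟨t', ht'⟩ := hy
    exact ⟨t ∪ t', mul_mem (YYa_mono (by simp) ht) (YYa_mono (by simp) ht')⟩
  | inv x _ hx =>
    obtain ⟨t, ht⟩ := hx
    exact ⟨t, inv_mem ht⟩

theorem cl2a {G : Type} [Group G] (s : Finset G) (z : G)
    (hz : z ∈ ⁅Subgroup.normalClosure (s : Set G), (⊤ : Subgroup G)⁆) :
    ∃ t : Finset G, z ∈ DDa (s : Set G) (t : Set G) := by
  classical
  rw [Subgroup.commutator_def] at hz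
  induction hz using Subgroup.closure_induction with
  | mem x hx =>
    obtain ⟨y, hy, g, _, rfl⟩ := hx
    obtain ⟨t, ht⟩ := cl1a s y hy
    refine ⟨t ∪ {g}, ?_⟩
    exact Subgroup.commutator_mem_commutator (YYa_mono (by simp) ht) (Subgroup.subset_closure (by simp))
  | one => exact ⟨∅, one_mem _⟩
  | mul x y _ _ hx hy =>
    obtain ⟨t, ht⟩ := hx
    obtain ⟨t', ht'⟩ := hy
    exact ⟨t ∪ t', mul_mem (DDa_mono (by simp) ht) (DDa_mono (by simp) ht')⟩
  | inv x _ hx =>
    obtain ⟨t, ht⟩ := hx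
    exact ⟨t, inv_mem ht⟩

theorem conjYa {G : Type} [Group G] (s t : Set G) (k : G) (hk : k ∈ Subgroup.closure t) (y : G)
    (hy : y ∈ YYa s t) : k * y * k⁻¹ ∈ YYa s t := by
  unfold YYa at hy
  induction hy using Subgroup.closure_induction with
  | mem x hx =>
    obtain ⟨c, hc, x, hx, rfl⟩ := hx
    exact Subgroup.subset_closure ⟨k * c, mul_mem hk hc, x, hx, by group⟩
  | one => rw [mul_one, mul_inv_cancel]; exact one_mem _
  | mul x y _ _ hx hy =>
    have : k * (x * y) * k⁻¹ = (k * x * k⁻¹) * (k * y * k⁻¹) := by group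
    rw [this]
    exact mul_mem hx hy
  | inv x _ hx =>
    have : k * x⁻¹ * k⁻¹ = (k * x * k⁻¹)⁻¹ := by group
    rw [this]
    exact inv_mem hx

open scoped commutatorElement in
theorem conjDa {G : Type} [Group G] (s t : Set G) (k : G) (hk : k ∈ Subgroup.closure t) (y : G)
    (hy : y ∈ DDa s t) : k * y * k⁻¹ ∈ DDa s t := by
  unfold DDa at hy
  rw [Subgroup.commutator_def] at hy
  induction hy using Subgroup.closure_induction with
  | mem x hx =>
    obtain ⟨y, hy, g, hg, rfl⟩ := hx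
    have : k * ⁅y, g⁆ * k⁻¹ = ⁅k * y * k⁻¹, k * g * k⁻¹⁆ := by
      simp only [commutatorElement_def]
      group
    rw [this]
    exact Subgroup.commutator_mem_commutator (conjYa s t k hk y hy)
      (mul_mem (mul_mem hk hg) (inv_mem hk))
  | one => rw [mul_one, mul_inv_cancel]; exact one_mem _
  | mul x y _ _ hx hy =>
    have : k * (x * y) * k⁻¹ = (k * x * k⁻¹) * (k * y * k⁻¹) := by group
    rw [this]
    exact mul_mem hx hy
  | inv x _ hx =>
    have : k * x⁻¹ * k⁻¹ = (k * x * k⁻¹)⁻¹ := by group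
    rw [this]
    exact inv_mem hx

theorem existsTa {G : Type} [Group G] (s : Finset G)
    (h : ∀ x ∈ s, ∃ t : Finset G, x ∈ DDa (s : Set G) (t : Set G)) :
    ∃ t : Finset G, s ⊆ t ∧ ∀ x ∈ s, x ∈ DDa (s : Set G) (t : Set G) := by
  classical
  choose! f hf using h
  refine ⟨s ∪ s.biUnion f, by simp, fun x hx => ?_⟩
  refine DDa_mono ?_ (hf x hx)
  intro y hy
  simp only [Finset.coe_union, Set.mem_union, Finset.mem_coe, Finset.mem_biUnion]
  right
  exact ⟨x, hx, hy⟩

theorem nfg_comm (G : Type) [Group G] (hL : LocNil G) (s : Finset G)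
    (h : Subgroup.normalClosure (s : Set G) ≤ ⁅Subgroup.normalClosure (s : Set G), (⊤ : Subgroup G)⁆) :
    Subgroup.normalClosure (s : Set G) = ⊥ := by
  classical
  obtain ⟨t, hst, ht⟩ := existsTa s (fun x hx => cl2a s x (h (Subgroup.subset_normalClosure hx)))
  have hYD : YYa (s : Set G) (t : Set G) ≤ DDa (s : Set G) (t : Set G) := by
    unfold YYa
    rw [Subgroup.closure_le]
    rintro z ⟨k, hk, x, hx, rfl⟩
    exact conjDa _ _ k hk x (ht x hx)
  have hYK : YYa (s : Set G) (t : Set G) ≤ Subgroup.closure (t : Set G) := by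
    unfold YYa
    rw [Subgroup.closure_le]
    rintro z ⟨k, hk, x, hx, rfl⟩
    exact mul_mem (mul_mem hk (Subgroup.subset_closure (hst hx))) (inv_mem hk)
  have key : ∀ n, YYa (s : Set G) (t : Set G) ≤
      (Subgroup.closure (t : Set G)).lowerCentralSeries n := by
    intro n
    induction n with
    | zero =>
      intro y hy
      exact hYK hy
    | succ n ih =>
      rw [Subgroup.lowerCentralSeries_succ]
      refine hYD.trans ?_
      exact Subgroup.commutator_mono ih le_rfl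
  obtain ⟨n, hn⟩ := (Subgroup.isNilpotent_iff_lowerCentralSeries _).1 (hL t)
  have hbot := key n
  rw [hn, le_bot_iff] at hbot
  rw [eq_bot_iff]
  apply Subgroup.normalClosure_le_normal
  intro x hx
  have hx' : x ∈ YYa (s : Set G) (t : Set G) :=
    Subgroup.subset_closure ⟨1, one_mem _, x, hx, by simp⟩
  rw [hbot] at hx'
  exact hx'


end b_nfgcomm

section b_fgtor


theorem h267_ab_index (H : Type) [Group H] (hfg : Group.FG H) (ht : IsMulTorsion H) :
    (commutator H).index ≠ 0 := by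
  have := hfg
  have h1 : IsMulTorsion (Abelianization H) :=
    ht.of_surjective (f := Abelianization.of) (QuotientGroup.mk_surjective)
  have : Group.FG (Abelianization H) := by
    unfold Abelianization
    infer_instance
  have : Finite (Abelianization H) := CommGroup.finite_of_fg_isMulTorsion _ h1
  have h2 : Finite (H ⧸ commutator H) := this
  exact (Subgroup.finiteIndex_iff_finite_quotient.mpr h2).index_ne_zero

theorem h267_step (K : Type) [Group K] (hfg : Group.FG K) (ht : IsMulTorsion K) :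
    ∀ n : ℕ, (derivedSeries K n).index ≠ 0 := by
  intro n
  induction n with
  | zero => simp
  | succ n ih =>
    have := hfg
    have : (derivedSeries K n).FiniteIndex := ⟨ih⟩
    have hFG : Group.FG (derivedSeries K n) := inferInstance
    have h1 := h267_ab_index (derivedSeries K n) hFG (ht.subgroup _)
    have h2 : (commutator (derivedSeries K n)).map (derivedSeries K n).subtype
        = derivedSeries K (n + 1) := by
      rw [derivedSeries_succ, commutator_def, Subgroup.map_commutator, ← MonoidHom.range_eq_map,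
        Subgroup.range_subtype]
    have h3 : (derivedSeries K (n + 1)).subgroupOf (derivedSeries K n)
        = commutator (derivedSeries K n) := by
      rw [← h2]
      exact Subgroup.comap_map_eq_self_of_injective (Subgroup.subtype_injective _) _
    have h4 : (derivedSeries K (n + 1)).relIndex (derivedSeries K n) ≠ 0 := by
      unfold Subgroup.relIndex
      rw [h3]
      exact h1
    have h5 : derivedSeries K (n + 1) ≤ derivedSeries K n := derivedSeries_antitone K (Nat.le_succ n)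
    rw [← Subgroup.relIndex_mul_index h5]
    exact mul_ne_zero h4 ih

theorem fg_torsion_finite (K : Type) [Group K] (hn : Group.IsNilpotent K) (hfg : Group.FG K)
    (ht : ∀ k : K, ∃ n : ℕ, 0 < n ∧ k ^ n = 1) : Finite K := by
  have := hn
  have hs : Group.IsSolvable K := inferInstance
  obtain ⟨n, hn⟩ := hs.solvable
  have htt : IsMulTorsion K := fun k => isOfFinOrder_iff_pow_eq_one.mpr (ht k)
  have h := h267_step K hfg htt n
  rw [hn] at h
  have : (⊥ : Subgroup K).FiniteIndex := ⟨h⟩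
  have h2 := Subgroup.finiteIndex_iff_finite_quotient.mp this
  exact Finite.of_equiv _ (QuotientGroup.quotientBot (G := K)).toEquiv


end b_fgtor

section b_exp


theorem exponent_nilp_pow_comm {K : Type} [Group K] (P G c : K) (hc : ∀ g : K, c * g = g * c)
    (h : P * G = c * G * P) : ∀ n : ℕ, P ^ n * G = c ^ n * G * P ^ n := by
  intro n
  induction n with
  | zero => simp
  | succ n ih =>
    have hcn : ∀ g : K, c ^ n * g = g * c ^ n := by
      intro g
      exact ((show Commute c g from hc g).pow_left n).eq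
    calc P ^ (n + 1) * G = P ^ n * (P * G) := by rw [pow_succ]; group
      _ = P ^ n * c * G * P := by rw [h]; group
      _ = c * (P ^ n * G) * P := by rw [← hc (P ^ n)]; group
      _ = c * (c ^ n * G * P ^ n) * P := by rw [ih]
      _ = c ^ (n + 1) * G * P ^ (n + 1) := by rw [pow_succ' c, pow_succ P]; group

open scoped commutatorElement in
theorem exponent_nilp_step (Q : Type) [Group Q] (e : ℕ)
    (h : ∀ q : Q, q ^ e ∈ commutator Q) : ∀ i : ℕ, ∀ x ∈ (⊤ : Subgroup Q).lowerCentralSeries i,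
      x ^ e ∈ (⊤ : Subgroup Q).lowerCentralSeries (i + 1) := by
  intro i
  induction i with
  | zero =>
    intro x _
    rw [zero_add, Subgroup.top_lowerCentralSeries_one]
    exact h x
  | succ i ih =>
    have hN : ((⊤ : Subgroup Q).lowerCentralSeries (i + 1 + 1)).Normal := inferInstance
    have hcen : ∀ y ∈ (⊤ : Subgroup Q).lowerCentralSeries (i + 1), ∀ g : Q,
        (QuotientGroup.mk y : Q ⧸ (⊤ : Subgroup Q).lowerCentralSeries (i + 1 + 1)) *
          QuotientGroup.mk g = QuotientGroup.mk g * QuotientGroup.mk y := by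
      intro y hy g
      rw [← QuotientGroup.mk_mul, ← QuotientGroup.mk_mul, QuotientGroup.eq]
      have h1 : ⁅g⁻¹, y⁻¹⁆ ∈ (⊤ : Subgroup Q).lowerCentralSeries (i + 1 + 1) := by
        rw [← commutatorElement_inv]
        apply Subgroup.inv_mem
        rw [Subgroup.lowerCentralSeries_succ]
        exact Subgroup.commutator_mem_commutator (Subgroup.inv_mem _ hy) (Subgroup.mem_top _)
      have h2 : (y * g)⁻¹ * (g * y) = ⁅g⁻¹, y⁻¹⁆ := by
        rw [commutatorElement_def]
        group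
      rw [h2]
      exact h1
    intro x hx
    have hx' := hx
    rw [Subgroup.mem_lowerCentralSeries_succ_iff] at hx'
    induction hx' using Subgroup.closure_induction with
    | mem x hxm =>
      obtain ⟨p, hp, q, _, rfl⟩ := hxm
      have hc : ∀ g : Q ⧸ (⊤ : Subgroup Q).lowerCentralSeries (i + 1 + 1),
          (QuotientGroup.mk ⁅p, q⁆) * g = g * QuotientGroup.mk ⁅p, q⁆ := by
        intro g
        obtain ⟨g, rfl⟩ := QuotientGroup.mk_surjective g
        exact hcen _ hx g
      have hPG : (QuotientGroup.mk p : Q ⧸ (⊤ : Subgroup Q).lowerCentralSeries (i + 1 + 1)) *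
          QuotientGroup.mk q = QuotientGroup.mk ⁅p, q⁆ * QuotientGroup.mk q * QuotientGroup.mk p := by
        rw [← QuotientGroup.mk_mul, ← QuotientGroup.mk_mul, ← QuotientGroup.mk_mul]
        congr 1
        rw [commutatorElement_def]
        group
      have h3 := exponent_nilp_pow_comm _ _ _ hc hPG e
      have h4 := ih p hp
      have h5 := hcen _ h4 q
      rw [QuotientGroup.mk_pow] at h5
      rw [h5] at h3
      have h6 : (QuotientGroup.mk ⁅p, q⁆ : Q ⧸ (⊤ : Subgroup Q).lowerCentralSeries (i + 1 + 1)) ^ e = 1 := by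
        have h7 := mul_right_cancel h3
        exact (right_eq_mul.mp h7)
      rw [← QuotientGroup.mk_pow, QuotientGroup.eq_one_iff] at h6
      exact h6
    | one => rw [one_pow]; exact Subgroup.one_mem _
    | mul x y hx1 hy1 hx2 hy2 =>
      have hx3 : x ∈ (⊤ : Subgroup Q).lowerCentralSeries (i + 1) := by
        rw [Subgroup.mem_lowerCentralSeries_succ_iff]; exact hx1
      have hy3 : y ∈ (⊤ : Subgroup Q).lowerCentralSeries (i + 1) := by
        rw [Subgroup.mem_lowerCentralSeries_succ_iff]; exact hy1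
      have hx4 := hx2 hx3
      have hy4 := hy2 hy3
      rw [← QuotientGroup.eq_one_iff, QuotientGroup.mk_pow] at hx4 hy4 ⊢
      have hcm : Commute (QuotientGroup.mk x : Q ⧸ (⊤ : Subgroup Q).lowerCentralSeries (i + 1 + 1))
          (QuotientGroup.mk y) := hcen x hx3 y
      rw [QuotientGroup.mk_mul, hcm.mul_pow, hx4, hy4, one_mul]
    | inv x hx1 hx2 =>
      have hx3 : x ∈ (⊤ : Subgroup Q).lowerCentralSeries (i + 1) := by
        rw [Subgroup.mem_lowerCentralSeries_succ_iff]; exact hx1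
      have hx4 := hx2 hx3
      rw [inv_pow]
      exact Subgroup.inv_mem _ hx4

theorem exponent_nilp (Q : Type) [Group Q] (c : ℕ) (hc : (⊤ : Subgroup Q).lowerCentralSeries c = ⊥) (e : ℕ)
    (h : ∀ q : Q, q ^ e ∈ commutator Q) : ∀ q : Q, q ^ (e ^ c) = 1 := by
  intro q
  have key : ∀ i : ℕ, q ^ (e ^ i) ∈ (⊤ : Subgroup Q).lowerCentralSeries i := by
    intro i
    induction i with
    | zero => simp
    | succ i ih =>
      rw [pow_succ, pow_mul]
      exact exponent_nilp_step Q e h i _ ih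
  have h1 := key c
  rw [hc, Subgroup.mem_bot] at h1
  exact h1


end b_exp

section b_rf


/-- states of the construction: a finite subgroup and a finite index subgroup, disjoint -/
structure RFState (B : Type) [CommGroup B] where
  F : Subgroup B
  M : Subgroup B
  fin : Finite F
  ind : M.index ≠ 0
  dis : F ⊓ M = ⊥

open scoped Pointwise in
theorem rf_step (B : Type) [CommGroup B] (hinf : Infinite B)
    (ht : ∀ b : B, ∃ n : ℕ, 0 < n ∧ b ^ n = 1)
    (hrf : ∀ b : B, b ≠ 1 → ∃ N : Subgroup B, N.index ≠ 0 ∧ b ∉ N) (s : RFState B) :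
    ∃ (b : B) (s' : RFState B), b ∈ s.M ∧ b ≠ 1 ∧ s'.F = s.F ⊔ Subgroup.zpowers b ∧
      s'.M ≤ s.M := by
  -- M is infinite
  have hM : ∃ b ∈ s.M, b ≠ 1 := by
    by_contra hcon
    push Not at hcon
    have h1 : s.M = ⊥ := (Subgroup.eq_bot_iff_forall _).2 hcon
    have h2 := s.ind
    rw [h1, Subgroup.index_bot] at h2
    haveI : Finite B := Nat.finite_of_card_ne_zero h2
    exact not_finite B
  obtain ⟨b, hb, hb1⟩ := hM
  have hzfin : Finite (Subgroup.zpowers b) := by
    obtain ⟨n, hn, hbn⟩ := ht b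
    have h0 : IsOfFinOrder b := isOfFinOrder_iff_pow_eq_one.2 ⟨n, hn, hbn⟩
    exact (finite_zpowers.2 h0).to_subtype
  have hF' : Finite (s.F ⊔ Subgroup.zpowers b : Subgroup B) := by
    have h1 : ((s.F ⊔ Subgroup.zpowers b : Subgroup B) : Set B) =
        (s.F : Set B) * (Subgroup.zpowers b : Set B) := Subgroup.mul_normal _ _
    have h2 : ((s.F ⊔ Subgroup.zpowers b : Subgroup B) : Set B).Finite := by
      rw [h1]
      haveI := s.fin
      exact Set.Finite.mul (Set.toFinite _) (Set.toFinite _)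
    exact h2.to_subtype
  choose! N hN1 hN2 using hrf
  set F' : Subgroup B := s.F ⊔ Subgroup.zpowers b with hF'def
  haveI := hF'
  set M'' : Subgroup B := ⨅ x : {x : F' // (x : B) ≠ 1}, N x.1 with hM''
  have hM''ind : M''.index ≠ 0 := by
    rw [hM'']
    exact Subgroup.index_iInf_ne_zero (fun x => hN1 _ x.2)
  refine ⟨b, ⟨F', s.M ⊓ M'', hF', Subgroup.index_inf_ne_zero s.ind hM''ind, ?_⟩, hb, hb1, rfl,
    inf_le_left⟩
  rw [Subgroup.eq_bot_iff_forall]
  intro x hx
  by_contra hx1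
  have hxF : x ∈ F' := hx.1
  have hxM : x ∈ M'' := hx.2.2
  have h3 : M'' ≤ N x := iInf_le (fun x : {x : F' // (x : B) ≠ 1} => N x.1) ⟨⟨x, hxF⟩, hx1⟩
  exact hN2 x hx1 (h3 hxM)

theorem rf_torsion_finite (B : Type) [CommGroup B] (hW : WeakMaxN B)
    (ht : ∀ b : B, ∃ n : ℕ, 0 < n ∧ b ^ n = 1)
    (hrf : ∀ b : B, b ≠ 1 → ∃ N : Subgroup B, N.index ≠ 0 ∧ b ∉ N) : Finite B := by
  by_contra hnf
  have hinf : Infinite B := not_finite_iff_infinite.1 hnf
  choose bf nx h1 h2 h3 h4 using rf_step B hinf ht hrf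
  let s0 : RFState B := ⟨⊥, ⊤, inferInstance, by simp, by simp⟩
  let s : ℕ → RFState B := fun n => Nat.rec s0 (fun _ t => nx t) n
  have hs : ∀ n, s (n + 1) = nx (s n) := fun n => rfl
  let b : ℕ → B := fun n => bf (s n)
  have hbM : ∀ n, b n ∈ (s n).M := fun n => h1 _
  have hb1 : ∀ n, b n ≠ 1 := fun n => h2 _
  have hFs : ∀ n, (s (n + 1)).F = (s n).F ⊔ Subgroup.zpowers (b n) := fun n => h3 _
  have hMa : Antitone (fun n => (s n).M) := antitone_nat_of_succ_le (fun n => h4 _)
  have hFm : Monotone (fun n => (s n).F) := monotone_nat_of_le_succ (fun n => by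
    rw [hFs]
    exact le_sup_left)
  have hbF : ∀ j i, j < i → b j ∈ (s i).F := by
    intro j i hji
    have h5 : b j ∈ (s (j + 1)).F := by
      rw [hFs]
      exact (le_sup_right : Subgroup.zpowers (b j) ≤ _) (Subgroup.mem_zpowers _)
    exact hFm (Nat.succ_le_of_lt hji) h5
  have hbMi : ∀ j i, i ≤ j → b j ∈ (s i).M := fun j i hij => hMa hij (hbM j)
  -- independence
  have key : ∀ (S : Set ℕ) (i i' : ℕ), i ∉ S → i < i' →
      b i * (b i')⁻¹ ∉ Subgroup.closure (b '' S) := by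
    intro S i i' hi hii' hmem
    have hle : Subgroup.closure (b '' S) ≤ (s i).F ⊔ (s (i + 1)).M := by
      rw [Subgroup.closure_le]
      rintro _ ⟨j, hj, rfl⟩
      rcases lt_trichotomy j i with h | h | h
      · exact (le_sup_left : (s i).F ≤ _) (hbF j i h)
      · exact absurd (h ▸ hj) hi
      · exact (le_sup_right : (s (i + 1)).M ≤ (s i).F ⊔ (s (i + 1)).M)
          (hbMi j (i + 1) (Nat.succ_le_of_lt h))
    have h5 : b i ∈ (s i).F ⊔ (s (i + 1)).M := by
      have h6 : b i = (b i * (b i')⁻¹) * b i' := by group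
      rw [h6]
      exact mul_mem (hle hmem) ((le_sup_right : (s (i + 1)).M ≤ (s i).F ⊔ (s (i + 1)).M)
          (hbMi i' (i + 1) (Nat.succ_le_of_lt hii')))
    obtain ⟨y, hy, z, hz, hyz⟩ := Subgroup.mem_sup.1 h5
    have hyM : y ∈ (s i).M := by
      have h7 : y = b i * z⁻¹ := by rw [← hyz]; group
      rw [h7]
      exact mul_mem (hbM i) (inv_mem (hMa (Nat.le_succ i) hz))
    have hy1 : y = 1 := by
      have h8 : y ∈ (s i).F ⊓ (s i).M := ⟨hy, hyM⟩
      rw [(s i).dis] at h8
      exact Subgroup.mem_bot.1 h8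
    have hbz : b i ∈ (s (i + 1)).M := by
      rw [← hyz, hy1, one_mul]
      exact hz
    have h9 : b i ∈ (s (i + 1)).F ⊓ (s (i + 1)).M := ⟨hbF i (i + 1) (Nat.lt_succ_self i), hbz⟩
    rw [(s (i + 1)).dis] at h9
    exact hb1 i (Subgroup.mem_bot.1 h9)
  -- the chain
  let S : ℕ → Set ℕ := fun n => {i | (Nat.unpair i).1 < n}
  have hSm : Monotone S := fun m n hmn i hi => lt_of_lt_of_le hi hmn
  obtain ⟨n, hn⟩ := hW (fun n => Subgroup.closure (b '' S n)) (fun n => inferInstance)
    (fun m n hmn => Subgroup.closure_mono (Set.image_mono (hSm hmn)))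
  have hidx := hn n le_rfl
  haveI : (((Subgroup.closure (b '' S n))).subgroupOf (Subgroup.closure (b '' S (n + 1)))).FiniteIndex :=
    ⟨hidx⟩
  have hfq : Finite ((Subgroup.closure (b '' S (n + 1))) ⧸
    ((Subgroup.closure (b '' S n))).subgroupOf (Subgroup.closure (b '' S (n + 1)))) :=
    Subgroup.finite_quotient_of_finiteIndex
  have hmemS : ∀ k, Nat.pair n k ∈ S (n + 1) := by
    intro k
    show (Nat.unpair (Nat.pair n k)).1 < n + 1
    rw [Nat.unpair_pair]
    exact Nat.lt_succ_self n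
  have hnmemS : ∀ k, Nat.pair n k ∉ S n := by
    intro k hk
    have hk' : (Nat.unpair (Nat.pair n k)).1 < n := hk
    rw [Nat.unpair_pair] at hk'
    exact lt_irrefl _ hk'
  let e : ℕ → Subgroup.closure (b '' S (n + 1)) := fun k =>
    ⟨b (Nat.pair n k), Subgroup.subset_closure ⟨_, hmemS k, rfl⟩⟩
  have hinj : Function.Injective (fun k => (QuotientGroup.mk (e k) :
      (Subgroup.closure (b '' S (n + 1))) ⧸
      ((Subgroup.closure (b '' S n))).subgroupOf (Subgroup.closure (b '' S (n + 1))))) := by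
    intro k k' hkk'
    by_contra hne
    have h5 := QuotientGroup.eq.1 hkk'
    rw [Subgroup.mem_subgroupOf] at h5
    have h6 : (b (Nat.pair n k))⁻¹ * b (Nat.pair n k') ∈ Subgroup.closure (b '' S n) := h5
    have hne2 : Nat.pair n k ≠ Nat.pair n k' := by
      intro h
      exact hne (Nat.pair_eq_pair.1 h).2
    rcases lt_or_gt_of_ne hne2 with h | h
    · refine key (S n) _ _ (hnmemS k) h ?_
      have := inv_mem h6
      rw [mul_inv_rev, inv_inv, mul_comm] at this
      exact this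
    · refine key (S n) _ _ (hnmemS k') h ?_
      rw [mul_comm] at h6
      exact h6
  haveI := Infinite.of_injective _ hinj
  exact not_finite ((Subgroup.closure (b '' S (n + 1))) ⧸
    ((Subgroup.closure (b '' S n))).subgroupOf (Subgroup.closure (b '' S (n + 1))))


end b_rf

section b_gen


theorem nilp_gen (Q : Type) [Group Q] (hn : Group.IsNilpotent Q) (H : Subgroup Q)
    (h : H ⊔ commutator Q = ⊤) : H = ⊤ := by
  have key : ∀ (G : Type) [Group G] [Group.IsNilpotent G], ∀ H : Subgroup G,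
      H ⊔ commutator G = ⊤ → H = ⊤ := by
    intro G _ _
    refine Group.nilpotent_center_quotient_ind
      (P := fun G _ _ => ∀ H : Subgroup G, H ⊔ commutator G = ⊤ → H = ⊤) G ?_ ?_
    · intro G _ _ H _
      exact Subsingleton.elim _ _
    · intro G _ _ ih H hH
      have h1 : H.map (QuotientGroup.mk' (Subgroup.center G)) = ⊤ := by
        apply ih
        have h2 : (commutator G).map (QuotientGroup.mk' (Subgroup.center G)) =
            commutator (G ⧸ Subgroup.center G) := by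
          rw [commutator_def, commutator_def, Subgroup.map_commutator,
            Subgroup.map_top_of_surjective _ (QuotientGroup.mk'_surjective _)]
        rw [← h2, ← Subgroup.map_sup, hH,
          Subgroup.map_top_of_surjective _ (QuotientGroup.mk'_surjective _)]
      have h3 : ∀ g : G, ∃ x ∈ H, ∃ z ∈ Subgroup.center G, g = x * z := by
        intro g
        have h4 : (g : G ⧸ Subgroup.center G) ∈ H.map (QuotientGroup.mk' (Subgroup.center G)) := by
          rw [h1]; exact Subgroup.mem_top _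
        obtain ⟨x, hx, hxg⟩ := h4
        refine ⟨x, hx, x⁻¹ * g, QuotientGroup.eq.1 hxg, by group⟩
      have h5 : commutator G ≤ H := by
        rw [commutator_def, Subgroup.commutator_le]
        intro a _ b _
        obtain ⟨x, hx, z, hz, rfl⟩ := h3 a
        obtain ⟨y, hy, w, hw, rfl⟩ := h3 b
        have hz' := fun g => (Subgroup.mem_center_iff.1 hz g)
        have hw' := fun g => (Subgroup.mem_center_iff.1 hw g)
        have e : x * z * (y * w) * (x * z)⁻¹ * (y * w)⁻¹ = x * y * x⁻¹ * y⁻¹ := by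
          rw [mul_inv_rev, mul_inv_rev]
          calc x * z * (y * w) * (z⁻¹ * x⁻¹) * (w⁻¹ * y⁻¹)
              = x * (z * (y * w)) * z⁻¹ * x⁻¹ * w⁻¹ * y⁻¹ := by group
            _ = x * ((y * w) * z) * z⁻¹ * x⁻¹ * w⁻¹ * y⁻¹ := by rw [← hz' (y * w)]
            _ = x * y * (w * x⁻¹) * w⁻¹ * y⁻¹ := by group
            _ = x * y * (x⁻¹ * w) * w⁻¹ * y⁻¹ := by rw [← hw' x⁻¹]
            _ = x * y * x⁻¹ * y⁻¹ := by group
        rw [commutatorElement_def, e]
        exact H.mul_mem (H.mul_mem (H.mul_mem hx hy) (H.inv_mem hx)) (H.inv_mem hy)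
      rw [sup_eq_left.2 h5] at hH
      exact hH
  haveI := hn
  exact key Q H h


end b_gen

section b_M0


theorem exists_M0
    (hq : ∀ (G : Type) [Group G], WeakMaxN G → ∀ (N : Subgroup G) [N.Normal], WeakMaxN (G ⧸ N))
    (hrf : ∀ (B : Type) [CommGroup B], WeakMaxN B → (∀ b : B, ∃ n : ℕ, 0 < n ∧ b ^ n = 1) →
      (∀ b : B, b ≠ 1 → ∃ N : Subgroup B, N.index ≠ 0 ∧ b ∉ N) → Finite B)
    (G : Type) [Group G] (hW : WeakMaxN G) (ht : ∀ g : G, ∃ n : ℕ, 0 < n ∧ g ^ n ∈ commutator G) :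
    ∃ M0 : Subgroup G, M0.Normal ∧ M0.index ≠ 0 ∧
      ∀ N : Subgroup G, N.index ≠ 0 → commutator G ≤ N → M0 ≤ N := by
  have hWB : WeakMaxN (Abelianization G) := hq G hW (commutator G)
  have hsurj : Function.Surjective (Abelianization.of : G →* Abelianization G) :=
    QuotientGroup.mk_surjective
  have hker : (Abelianization.of : G →* Abelianization G).ker = commutator G :=
    Abelianization.ker_of G
  set J : Subgroup (Abelianization G) := sInf {N | N.index ≠ 0} with hJ
  haveI : J.Normal := inferInstance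
  have hWQ : WeakMaxN (Abelianization G ⧸ J) := hq (Abelianization G) hWB J
  have hfin : Finite (Abelianization G ⧸ J) := by
    refine hrf (Abelianization G ⧸ J) hWQ ?_ ?_
    · intro b
      obtain ⟨b0, rfl⟩ := QuotientGroup.mk_surjective b
      obtain ⟨g, rfl⟩ := hsurj b0
      obtain ⟨n, hn, hg⟩ := ht g
      refine ⟨n, hn, ?_⟩
      have h1 : (Abelianization.of g : Abelianization G) ^ n = 1 := by
        rw [← map_pow, ← MonoidHom.mem_ker, hker]
        exact hg
      rw [← QuotientGroup.mk_pow, h1, QuotientGroup.mk_one]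
    · intro b hb
      obtain ⟨b0, rfl⟩ := QuotientGroup.mk_surjective b
      have hb0 : b0 ∉ J := fun h => hb ((QuotientGroup.eq_one_iff b0).2 h)
      rw [hJ, Subgroup.mem_sInf] at hb0
      push Not at hb0
      obtain ⟨N, hN, hbN⟩ := hb0
      have hJN : J ≤ N := sInf_le hN
      refine ⟨N.map (QuotientGroup.mk' J), ?_, ?_⟩
      · intro h0
        have := Subgroup.index_map_dvd N (QuotientGroup.mk'_surjective J)
        rw [h0, zero_dvd_iff] at this
        exact hN this
      · intro h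
        obtain ⟨x, hx, hxb⟩ := Subgroup.mem_map.1 h
        have h2 : x⁻¹ * b0 ∈ J := QuotientGroup.eq.1 hxb
        have h3 := N.mul_mem hx (hJN h2)
        rw [mul_inv_cancel_left] at h3
        exact hbN h3
  have hJi : J.index ≠ 0 := by
    have : J.index = Nat.card (Abelianization G ⧸ J) := rfl
    rw [this]
    exact Nat.card_pos.ne'
  refine ⟨J.comap Abelianization.of, inferInstance, ?_, ?_⟩
  · rw [Subgroup.index_comap_of_surjective J hsurj]
    exact hJi
  · intro N hN hcN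
    have h1 : (N.map (Abelianization.of : G →* Abelianization G)).index ≠ 0 := by
      intro h0
      have := Subgroup.index_map_dvd N hsurj
      rw [h0, zero_dvd_iff] at this
      exact hN this
    have h2 : J ≤ N.map (Abelianization.of : G →* Abelianization G) := sInf_le h1
    have h3 : (N.map (Abelianization.of : G →* Abelianization G)).comap Abelianization.of = N :=
      Subgroup.comap_map_eq_self (by rw [hker]; exact hcN)
    rw [← h3]
    exact Subgroup.comap_mono h2


end b_M0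

section b_R


theorem rep_aux {G : Type} [Group G] (N : Subgroup G) (h : N.index ≠ 0) :
    ∃ s : Finset G, Subgroup.closure (s : Set G) ⊔ N = ⊤ := by
  classical
  have : N.FiniteIndex := ⟨h⟩
  have : Finite (G ⧸ N) := inferInstance
  have := Fintype.ofFinite (G ⧸ N)
  refine ⟨Finset.univ.image (fun q : G ⧸ N => Quotient.out q), ?_⟩
  rw [eq_top_iff]
  intro g _
  have h1 : (Quotient.out (QuotientGroup.mk g : G ⧸ N)) ∈ Subgroup.closure
      ((Finset.univ.image (fun q : G ⧸ N => Quotient.out q) : Finset G) : Set G) := by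
    apply Subgroup.subset_closure
    simp
  have h2 : (Quotient.out (QuotientGroup.mk g : G ⧸ N))⁻¹ * g ∈ N :=
    QuotientGroup.eq.mp (QuotientGroup.out_eq' _)
  have h3 := mul_mem (Subgroup.mem_sup_left (T := N) h1) (Subgroup.mem_sup_right (S := Subgroup.closure
      ((Finset.univ.image (fun q : G ⧸ N => Quotient.out q) : Finset G) : Set G)) h2)
  simpa using h3

theorem exists_R (G : Type) [Group G] (hL : LocNil G)
    (ht : ∀ g : G, ∃ n : ℕ, 0 < n ∧ g ^ n ∈ commutator G)
    (hM0 : ∃ M0 : Subgroup G, M0.Normal ∧ M0.index ≠ 0 ∧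
      ∀ N : Subgroup G, N.index ≠ 0 → commutator G ≤ N → M0 ≤ N)
    (hgen : ∀ (Q : Type) [Group Q], Group.IsNilpotent Q → ∀ H : Subgroup Q, H ⊔ commutator Q = ⊤ → H = ⊤)
    (hexp : ∀ (Q : Type) [Group Q] (c : ℕ), (⊤ : Subgroup Q).lowerCentralSeries c = ⊥ → ∀ e : ℕ,
      (∀ q : Q, q ^ e ∈ commutator Q) → ∀ q : Q, q ^ (e ^ c) = 1)
    (hfgt : ∀ (K : Type) [Group K], Group.IsNilpotent K → Group.FG K →
      (∀ k : K, ∃ n : ℕ, 0 < n ∧ k ^ n = 1) → Finite K) :
    ∃ R : Subgroup G, R.Normal ∧ R.index ≠ 0 ∧ ∀ N : Subgroup G, N.Normal → N.index ≠ 0 → R ≤ N := by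
  classical
  obtain ⟨M0, hM0n, hM0i, hM0⟩ := hM0
  obtain ⟨s, hs⟩ := rep_aux M0 hM0i
  set K : Subgroup G := Subgroup.closure (s : Set G) with hK
  have hKn : Group.IsNilpotent K := hL s
  obtain ⟨c, hc⟩ := (Subgroup.isNilpotent_iff_lowerCentralSeries K).mp hKn
  -- exponent
  choose n hn0 hn using ht
  set e : ℕ := ∏ x ∈ s, n x with he
  have he0 : 0 < e := Finset.prod_pos (fun x _ => hn0 x)
  have hKe : ∀ k ∈ K, k ^ e ∈ commutator G := by
    intro k hk
    have hle : K ≤ ((powMonoidHom e : Abelianization G →* Abelianization G).comp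
        (Abelianization.of)).ker := by
      rw [hK, Subgroup.closure_le]
      intro x hx
      have hx' : x ∈ s := by simpa using hx
      simp only [SetLike.mem_coe, MonoidHom.mem_ker, MonoidHom.comp_apply, powMonoidHom_apply]
      rw [← map_pow]
      have hd : n x ∣ e := Finset.dvd_prod_of_mem n hx'
      obtain ⟨d, hd⟩ := hd
      have : x ^ e ∈ commutator G := by
        rw [hd, pow_mul]
        exact pow_mem (hn x) d
      rw [← MonoidHom.mem_ker, Abelianization.ker_of]
      exact this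
    have := hle hk
    simp only [MonoidHom.mem_ker, MonoidHom.comp_apply, powMonoidHom_apply] at this
    rw [← map_pow, ← MonoidHom.mem_ker, Abelianization.ker_of] at this
    exact this
  let P : Subgroup K := Subgroup.normalClosure {k | ∃ k' : K, k = k' ^ (e ^ c)}
  have hfin : Finite (K ⧸ P) := by
    have := hKn
    have : Group.FG K := by
      rw [Group.fg_iff_subgroup_fg]
      exact ⟨s, rfl⟩
    refine hfgt (K ⧸ P) inferInstance inferInstance ?_
    intro k
    obtain ⟨k, rfl⟩ := QuotientGroup.mk_surjective k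
    refine ⟨e ^ c, pow_pos he0 c, ?_⟩
    rw [← QuotientGroup.mk_pow, QuotientGroup.eq_one_iff]
    exact Subgroup.subset_normalClosure ⟨k, rfl⟩
  have hbound : ∀ N : Subgroup G, N.Normal → N.index ≠ 0 → N.index ≤ Nat.card (K ⧸ P) := by
    intro N hN hNi
    -- Q nilpotent
    obtain ⟨t, htop⟩ := rep_aux N hNi
    have hmapN : N.map (QuotientGroup.mk' N) = ⊥ := by
      rw [eq_bot_iff, Subgroup.map_le_iff_le_comap]
      intro x hx
      rw [Subgroup.mem_comap, Subgroup.mem_bot]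
      simpa using hx
    have hsurj : Function.Surjective (QuotientGroup.mk' N) := QuotientGroup.mk'_surjective N
    have hQn : Group.IsNilpotent (G ⧸ N) := by
      obtain ⟨c', hc'⟩ := (Subgroup.isNilpotent_iff_lowerCentralSeries _).mp (hL t)
      rw [Subgroup.nilpotent_iff_lowerCentralSeries]
      refine ⟨c', ?_⟩
      have h1 : (Subgroup.closure (t : Set G)).map (QuotientGroup.mk' N) = ⊤ := by
        have := congrArg (Subgroup.map (QuotientGroup.mk' N)) htop
        rw [Subgroup.map_sup, hmapN, sup_bot_eq, Subgroup.map_top_of_surjective _ hsurj] at this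
        exact this
      rw [← h1, ← Subgroup.map_lowerCentralSeries, hc', Subgroup.map_bot]
    have hcomm : (commutator G).map (QuotientGroup.mk' N) ≤ commutator (G ⧸ N) := by
      rw [commutator_def, commutator_def, Subgroup.map_commutator]
      exact Subgroup.commutator_mono le_top le_top
    have hKtop : K.map (QuotientGroup.mk' N) = ⊤ := by
      apply hgen (G ⧸ N) hQn
      have h1 : M0 ≤ N ⊔ commutator G := by
        apply hM0
        · exact fun h0 => hNi (Nat.eq_zero_of_zero_dvd (h0 ▸ Subgroup.index_dvd_of_le le_sup_left))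
        · exact le_sup_right
      have h2 : K ⊔ (N ⊔ commutator G) = ⊤ := by
        rw [eq_top_iff, ← hs]
        exact sup_le_sup_left h1 K
      have := congrArg (Subgroup.map (QuotientGroup.mk' N)) h2
      rw [Subgroup.map_sup, Subgroup.map_sup, hmapN, bot_sup_eq,
        Subgroup.map_top_of_surjective _ hsurj] at this
      rw [eq_top_iff, ← this]
      exact sup_le_sup_left hcomm _
    have hlcs : (⊤ : Subgroup (G ⧸ N)).lowerCentralSeries c = ⊥ := by
      rw [← hKtop, ← Subgroup.map_lowerCentralSeries, hc, Subgroup.map_bot]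
    have hqe : ∀ q : G ⧸ N, q ^ (e ^ c) = 1 := by
      apply hexp (G ⧸ N) c hlcs e
      intro q
      have hq : q ∈ K.map (QuotientGroup.mk' N) := by rw [hKtop]; trivial
      obtain ⟨k, hk, rfl⟩ := hq
      rw [← map_pow]
      exact hcomm ⟨_, hKe k hk, rfl⟩
    let f : K →* (G ⧸ N) := (QuotientGroup.mk' N).comp K.subtype
    have hf : ∀ x ∈ P, f x = 1 := by
      have : P ≤ f.ker := by
        apply Subgroup.normalClosure_le_normal
        rintro k ⟨k', rfl⟩
        simp only [SetLike.mem_coe, MonoidHom.mem_ker, map_pow]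
        exact hqe _
      intro x hx
      exact this hx
    have hsf : Function.Surjective (QuotientGroup.lift P f hf) := by
      intro q
      have hq : q ∈ K.map (QuotientGroup.mk' N) := by rw [hKtop]; trivial
      obtain ⟨k, hk, rfl⟩ := hq
      exact ⟨QuotientGroup.mk ⟨k, hk⟩, rfl⟩
    have := hfin
    exact Nat.card_le_card_of_surjective _ hsf
  -- maximal index
  let S : Set ℕ := {m | ∃ N : Subgroup G, N.Normal ∧ N.index ≠ 0 ∧ N.index = m}
  have hSne : S.Nonempty := ⟨1, ⊤, inferInstance, by simp, by simp⟩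
  have hSb : BddAbove S := ⟨Nat.card (K ⧸ P), by
    rintro m ⟨N, h1, h2, rfl⟩
    exact hbound N h1 h2⟩
  obtain ⟨R, hRn, hRi, hR⟩ := Nat.sSup_mem hSne hSb
  refine ⟨R, hRn, hRi, ?_⟩
  intro N hN hNi
  have := hRn
  have := hN
  have h1 : (R ⊓ N).index ≠ 0 := Subgroup.index_inf_ne_zero hRi hNi
  have h2 : (R ⊓ N).index ≤ R.index := by
    rw [hR]
    exact le_csSup hSb ⟨R ⊓ N, inferInstance, h1, rfl⟩
  have h3 : (R ⊓ N).relIndex R * R.index = (R ⊓ N).index := Subgroup.relIndex_mul_index inf_le_left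
  have h4 : (R ⊓ N).relIndex R = 1 := by
    have hpos : 0 < R.index := Nat.pos_of_ne_zero hRi
    have h5 : (R ⊓ N).relIndex R * R.index ≤ 1 * R.index := by rw [h3, one_mul]; exact h2
    have h6 := Nat.le_of_mul_le_mul_right h5 hpos
    have h7 : (R ⊓ N).relIndex R ≠ 0 := by
      intro h0
      rw [h0, zero_mul] at h3
      exact h1 h3.symm
    omega
  rw [Subgroup.relIndex_eq_one] at h4
  exact le_trans h4 inf_le_right


end b_R

section b_div


theorem no_fi (G : Type) [Group G] (R : Subgroup G) (hi : R.index ≠ 0)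
    (hR : ∀ N : Subgroup G, N.Normal → N.index ≠ 0 → R ≤ N) (H : Subgroup R) (hH : H.index ≠ 0) : H = ⊤ := by
  have h1 : (H.map R.subtype).index ≠ 0 := by
    rw [Subgroup.index_map_subtype]
    exact mul_ne_zero hH hi
  haveI : (H.map R.subtype).FiniteIndex := ⟨h1⟩
  have h2 : (H.map R.subtype).normalCore.index ≠ 0 := Subgroup.FiniteIndex.index_ne_zero
  have h3 : R ≤ (H.map R.subtype).normalCore := hR _ inferInstance h2
  have h4 : R ≤ H.map R.subtype := h3.trans (Subgroup.normalCore_le _)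
  rw [eq_top_iff]
  intro x _
  obtain ⟨y, hy, hyx⟩ := h4 x.2
  have : y = x := Subtype.ext hyx
  rw [← this]; exact hy

theorem dual_field_WMN (K : Type) (W : Type) [Field K] [AddCommGroup W] [Module K W] (v : W) (hv : v ≠ 0) :
    ∃ f : W →+ K, f v ≠ 0 := by
  obtain ⟨f, hf⟩ := (Module.Projective.exists_dual_ne_zero K hv : ∃ f : Module.Dual K W, f v ≠ 0)
  exact ⟨LinearMap.toAddMonoidHom f, hf⟩

theorem dual_aux_WMN (p : ℕ) (hp : p.Prime) (W : Type) [AddCommGroup W] (hW : ∀ x : W, p • x = 0) (v : W)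
    (hv : v ≠ 0) : ∃ φ : W →+ ZMod p, φ v ≠ 0 := by
  have : Fact p.Prime := ⟨hp⟩
  let inst : Module (ZMod p) W := AddCommGroup.zmodModule hW
  exact dual_field_WMN (ZMod p) W v hv

theorem div_of_no_fi_prime (V : Type) [CommGroup V] (h : ∀ H : Subgroup V, H.index ≠ 0 → H = ⊤) (p : ℕ) (hp : p.Prime)
    (v : V) : ∃ w : V, w ^ p = v := by
  haveI : Fact p.Prime := ⟨hp⟩
  by_contra hcon
  push Not at hcon
  let A := Additive V
  let pA : AddSubgroup A := (nsmulAddMonoidHom (α := A) p).range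
  let W := A ⧸ pA
  have hW : ∀ x : W, p • x = 0 := by
    intro x
    obtain ⟨a, rfl⟩ := QuotientAddGroup.mk_surjective x
    rw [← QuotientAddGroup.mk_nsmul, QuotientAddGroup.eq_zero_iff]
    exact ⟨a, rfl⟩
  have hv : (QuotientAddGroup.mk (Additive.ofMul v) : W) ≠ 0 := by
    intro h0
    rw [QuotientAddGroup.eq_zero_iff] at h0
    obtain ⟨a, ha⟩ := h0
    exact hcon (Additive.toMul a) ha
  obtain ⟨φ, hφ⟩ := dual_aux_WMN p hp W hW _ hv
  let f : V →* Multiplicative (ZMod p) :=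
    MonoidHom.mk' (fun x => Multiplicative.ofAdd (φ (QuotientAddGroup.mk (Additive.ofMul x) : W))) (by
      intro a b
      rw [ofMul_mul, QuotientAddGroup.mk_add, map_add, ofAdd_add])
  have hf : f.ker.index ≠ 0 := by
    rw [Subgroup.index_ker]
    exact Nat.card_pos.ne'
  have hk := h _ hf
  have : v ∈ f.ker := by rw [hk]; trivial
  rw [MonoidHom.mem_ker] at this
  exact hφ this

theorem div_of_no_fi (V : Type) [CommGroup V] (h : ∀ H : Subgroup V, H.index ≠ 0 → H = ⊤) (n : ℕ) (hn : 0 < n)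
    (v : V) : ∃ w : V, w ^ n = v := by
  induction n using Nat.strong_induction_on generalizing v with
  | _ n ih =>
    by_cases h1 : n = 1
    · exact ⟨v, by rw [h1, pow_one]⟩
    · have hp := Nat.minFac_prime h1
      obtain ⟨m, hm⟩ := Nat.minFac_dvd n
      have hm0 : 0 < m := by
        rcases Nat.eq_zero_or_pos m with h0 | h0
        · rw [h0] at hm; omega
        · exact h0
      have hmn : m < n := by
        have := hp.two_le
        nlinarith
      obtain ⟨w1, hw1⟩ := div_of_no_fi_prime V h _ hp v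
      obtain ⟨w, hw⟩ := ih m hmn hm0 w1
      refine ⟨w, ?_⟩
      rw [hm, mul_comm, pow_mul, hw, hw1]

theorem div_comm (R : Type) [Group R] (h : ∀ H : Subgroup R, H.index ≠ 0 → H = ⊤) (n : ℕ) (hn : 0 < n)
    (r : R) : ∃ c : R, ∃ d ∈ commutator R, r = c ^ n * d := by
  have hsurj : Function.Surjective (Abelianization.of : R →* Abelianization R) := QuotientGroup.mk_surjective
  have hV : ∀ H : Subgroup (Abelianization R), H.index ≠ 0 → H = ⊤ := by
    intro H hH
    have h1 : (H.comap (Abelianization.of : R →* Abelianization R)).index ≠ 0 := by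
      rw [Subgroup.index_comap_of_surjective _ hsurj]; exact hH
    have h2 := h _ h1
    rw [eq_top_iff]
    intro x _
    obtain ⟨y, rfl⟩ := hsurj x
    have : y ∈ H.comap (Abelianization.of : R →* Abelianization R) := by rw [h2]; trivial
    exact this
  obtain ⟨w, hw⟩ := div_of_no_fi (Abelianization R) hV n hn (Abelianization.of r)
  obtain ⟨c, rfl⟩ := hsurj w
  rw [← map_pow] at hw
  have h3 : (c ^ n)⁻¹ * r ∈ commutator R := QuotientGroup.eq.1 hw
  exact ⟨c, _, h3, by group⟩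


end b_div

section b_tor


open scoped commutatorElement in
theorem tor_R_engel (G : Type) [Group G] (hL : LocNil G) (x h : G) :
    ∃ n : ℕ, (fun y : G => ⁅y, h⁆)^[n] x = 1 := by
  classical
  have hK := hL ({x, h} : Finset G)
  set Kg : Subgroup G := Subgroup.closure (({x, h} : Finset G) : Set G) with hKg
  have hx : x ∈ Kg := Subgroup.subset_closure (by simp)
  have hh : h ∈ Kg := Subgroup.subset_closure (by simp)
  have key : ∀ n : ℕ, (fun y : G => ⁅y, h⁆)^[n] x ∈ Kg.lowerCentralSeries n := by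
    intro n
    induction n with
    | zero => exact hx
    | succ n ih =>
      rw [Function.iterate_succ_apply', Subgroup.lowerCentralSeries_succ]
      exact Subgroup.commutator_mem_commutator ih hh
  obtain ⟨n, hn⟩ := (Subgroup.isNilpotent_iff_lowerCentralSeries _).mp hK
  have := key n
  rw [hn] at this
  exact ⟨n, Subgroup.mem_bot.mp this⟩

open scoped commutatorElement in
theorem tor_R_central {H : Type} [Group H] (A : Subgroup H) (hAn : A.Normal)
    (hE : ∀ x h : H, ∃ n : ℕ, (fun y : H => ⁅y, h⁆)^[n] x = 1)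
    (hab : ∀ a ∈ A, ∀ b ∈ A, a * b = b * a)
    (htf : ∀ a ∈ A, ∀ n : ℕ, 0 < n → a ^ n = 1 → a = 1)
    (hfi : ∀ h : H, ∃ m : ℕ, 0 < m ∧ h ^ m ∈ A) : A ≤ Subgroup.center H := by
  have hA : ∀ h x : H, x ∈ A → ⁅x, h⁆ ∈ A := by
    intro h x hx
    rw [commutatorElement_def]
    have : x * h * x⁻¹ * h⁻¹ = x * (h * x⁻¹ * h⁻¹) := by group
    rw [this]
    exact A.mul_mem hx (hAn.conj_mem _ (A.inv_mem hx) h)
  have step : ∀ h x : H, x ∈ A → ⁅⁅x, h⁆, h⁆ = 1 → ⁅x, h⁆ = 1 := by
    intro h c hc h1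
    set d := ⁅c, h⁆ with hd
    have hdA : d ∈ A := hA h c hc
    have hdh : d * h = h * d := commutatorElement_eq_one_iff_mul_comm.mp h1
    have hch : h * c * h⁻¹ = d⁻¹ * c := by
      rw [hd, commutatorElement_def]; group
    have hcomm : Commute h d⁻¹ := by
      have : Commute h d := hdh.symm
      exact this.inv_right
    have hi : ∀ i : ℕ, h ^ i * c * (h ^ i)⁻¹ = (d⁻¹) ^ i * c := by
      intro i
      induction i with
      | zero => simp
      | succ i ih =>
        have e1 : h ^ (i + 1) * c * (h ^ (i + 1))⁻¹ = h * (h ^ i * c * (h ^ i)⁻¹) * h⁻¹ := by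
          rw [pow_succ']; group
        have e2 : h * (d⁻¹) ^ i = (d⁻¹) ^ i * h := (hcomm.pow_right i).eq
        rw [e1, ih]
        calc h * ((d⁻¹) ^ i * c) * h⁻¹ = (h * (d⁻¹) ^ i) * c * h⁻¹ := by group
          _ = (d⁻¹) ^ i * (h * c * h⁻¹) := by rw [e2]; group
          _ = (d⁻¹) ^ (i + 1) * c := by rw [hch, pow_succ]; group
    obtain ⟨m, hm, hmA⟩ := hfi h
    have h2 := hi m
    rw [hab _ hmA c hc, mul_inv_cancel_right] at h2
    have h3 : (d⁻¹) ^ m = 1 := by
      have : (d⁻¹) ^ m * c = 1 * c := by rw [← h2, one_mul]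
      exact mul_right_cancel this
    have h4 : d ^ m = 1 := by
      rw [inv_pow, inv_eq_one] at h3
      exact h3
    exact htf d hdA m hm h4
  have main : ∀ h : H, ∀ n : ℕ, ∀ x ∈ A, (fun y : H => ⁅y, h⁆)^[n] x = 1 → ⁅x, h⁆ = 1 := by
    intro h n
    induction n with
    | zero =>
      intro x hx h0
      simp only [Function.iterate_zero, id] at h0
      rw [h0]; simp
    | succ n ih =>
      intro x hx h0
      rw [Function.iterate_succ_apply] at h0
      exact step h x hx (ih _ (hA h x hx) h0)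
  intro x hx
  rw [Subgroup.mem_center_iff]
  intro h
  obtain ⟨n, hn⟩ := hE x h
  have := main h n x hx hn
  exact (commutatorElement_eq_one_iff_mul_comm.mp this).symm

open scoped commutatorElement in
theorem tor_R_aux (G : Type) [Group G] (hL : LocNil G) (ht : ∀ g : G, ∃ n : ℕ, 0 < n ∧ g ^ n ∈ commutator G)
    (R : Subgroup G) (hRn : R.Normal) (hRi : R.index ≠ 0) (r : G) (hr : r ∈ R) :
    ∃ n : ℕ, 0 < n ∧ r ^ n ∈ ⁅R, R⁆ := by
  have hR' : (⁅R, R⁆ : Subgroup G).Normal := inferInstance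
  have hR'R : ⁅R, R⁆ ≤ R := Subgroup.commutator_le_right R R
  -- modulo `[R,R]` elements of `R` commute
  have hmulpow : ∀ x ∈ R, ∀ y ∈ R, ∀ n : ℕ, x ^ n ∈ ⁅R, R⁆ → y ^ n ∈ ⁅R, R⁆ →
      (x * y) ^ n ∈ ⁅R, R⁆ := by
    intro x hx y hy n hxn hyn
    rw [← QuotientGroup.eq_one_iff] at hxn hyn ⊢
    have hc : Commute (x : G ⧸ ⁅R, R⁆) (y : G ⧸ ⁅R, R⁆) := by
      have h1 : ⁅x, y⁆ ∈ ⁅R, R⁆ := Subgroup.commutator_mem_commutator hx hy
      rw [← QuotientGroup.eq_one_iff] at h1
      have h2 : ⁅(x : G ⧸ ⁅R, R⁆), (y : G ⧸ ⁅R, R⁆)⁆ = 1 := h1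
      exact commutatorElement_eq_one_iff_mul_comm.mp h2
    have e : (((x * y) ^ n : G) : G ⧸ ⁅R, R⁆) = (x : G ⧸ ⁅R, R⁆) ^ n * (y : G ⧸ ⁅R, R⁆) ^ n := by
      rw [← hc.mul_pow]; rfl
    rw [e]
    have e1 : (x : G ⧸ ⁅R, R⁆) ^ n = 1 := hxn
    have e2 : (y : G ⧸ ⁅R, R⁆) ^ n = 1 := hyn
    rw [e1, e2, one_mul]
  let T : Subgroup G :=
    { carrier := {x | x ∈ R ∧ ∃ n : ℕ, 0 < n ∧ x ^ n ∈ ⁅R, R⁆}
      one_mem' := ⟨R.one_mem, 1, one_pos, by simp⟩
      mul_mem' := by
        rintro x y ⟨hx, n, hn, hxn⟩ ⟨hy, k, hk, hyk⟩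
        refine ⟨R.mul_mem hx hy, n * k, Nat.mul_pos hn hk, ?_⟩
        apply hmulpow x hx y hy
        · rw [pow_mul]; exact Subgroup.pow_mem _ hxn k
        · rw [mul_comm, pow_mul]; exact Subgroup.pow_mem _ hyk n
      inv_mem' := by
        rintro x ⟨hx, n, hn, hxn⟩
        refine ⟨R.inv_mem hx, n, hn, ?_⟩
        rw [inv_pow]
        exact Subgroup.inv_mem _ hxn }
  have hT : ∀ x, x ∈ T ↔ x ∈ R ∧ ∃ n : ℕ, 0 < n ∧ x ^ n ∈ ⁅R, R⁆ := fun x => Iff.rfl
  have hTn : T.Normal := by
    refine ⟨fun x hx g => ?_⟩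
    obtain ⟨hxR, n, hn, hxn⟩ := (hT x).mp hx
    refine (hT _).mpr ⟨hRn.conj_mem x hxR g, n, hn, ?_⟩
    rw [conj_pow]
    exact hR'.conj_mem _ hxn g
  have hR'T : ∀ z ∈ ⁅R, R⁆, z ∈ T := fun z hz => (hT z).mpr ⟨hR'R hz, 1, one_pos, by simpa using hz⟩
  let π : G →* G ⧸ T := QuotientGroup.mk' T
  have hπs : Function.Surjective π := QuotientGroup.mk'_surjective T
  have hπ1 : ∀ x : G, π x = 1 ↔ x ∈ T := fun x => QuotientGroup.eq_one_iff x
  have hcen : R.map π ≤ Subgroup.center (G ⧸ T) := by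
    apply tor_R_central (R.map π) (hRn.map π hπs)
    · intro x h
      obtain ⟨x, rfl⟩ := hπs x
      obtain ⟨h, rfl⟩ := hπs h
      obtain ⟨n, hn⟩ := tor_R_engel G hL x h
      refine ⟨n, ?_⟩
      have hit : ∀ n : ℕ, (fun y : G ⧸ T => ⁅y, π h⁆)^[n] (π x)
          = π ((fun y : G => ⁅y, h⁆)^[n] x) := by
        intro n
        induction n with
        | zero => rfl
        | succ n ih =>
          rw [Function.iterate_succ_apply', Function.iterate_succ_apply', ih]
          exact (map_commutatorElement π _ _).symm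
      rw [hit, hn, map_one]
    · rintro _ ⟨x, hx, rfl⟩ _ ⟨y, hy, rfl⟩
      have h1 : π ⁅x, y⁆ = 1 := (hπ1 _).mpr (hR'T _ (Subgroup.commutator_mem_commutator hx hy))
      rw [map_commutatorElement] at h1
      exact commutatorElement_eq_one_iff_mul_comm.mp h1
    · rintro _ ⟨x, hx, rfl⟩ k hk h1
      rw [← map_pow, hπ1, hT] at h1
      obtain ⟨-, n, hn, hxn⟩ := h1
      rw [hπ1, hT]
      exact ⟨hx, k * n, Nat.mul_pos hk hn, by rwa [pow_mul]⟩
    · intro h
      obtain ⟨g, rfl⟩ := hπs h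
      refine ⟨R.index, Nat.pos_of_ne_zero hRi, ?_⟩
      rw [← map_pow]
      exact Subgroup.mem_map_of_mem π (Subgroup.pow_index_mem R g)
  have hidx : (Subgroup.center (G ⧸ T)).index ≠ 0 := by
    intro h0
    have h1 : (Subgroup.center (G ⧸ T)).index ∣ (R.map π).index := Subgroup.index_dvd_of_le hcen
    have h2 : (R.map π).index ∣ R.index := Subgroup.index_map_dvd R hπs
    rw [h0] at h1
    have h3 := Nat.eq_zero_of_zero_dvd (h1.trans h2)
    exact hRi h3
  have : (Subgroup.center (G ⧸ T)).FiniteIndex := ⟨hidx⟩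
  obtain ⟨n, hn, hrn⟩ := ht r
  have hkerle : commutator G ≤ ((MonoidHom.transferCenterPow (G ⧸ T)).comp π).ker := by
    rw [commutator_eq_closure, Subgroup.closure_le]
    rintro x ⟨p, q, rfl⟩
    rw [SetLike.mem_coe, MonoidHom.mem_ker, map_commutatorElement,
      commutatorElement_eq_one_iff_mul_comm]
    apply Subtype.ext
    exact (Subgroup.mem_center_iff.mp
      (((MonoidHom.transferCenterPow (G ⧸ T)).comp π) q).2 _)
  have hker := hkerle hrn
  rw [MonoidHom.mem_ker, MonoidHom.comp_apply] at hker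
  have hk2 : ((MonoidHom.transferCenterPow (G ⧸ T) (π (r ^ n)) : Subgroup.center (G ⧸ T)) : G ⧸ T)
      = 1 := by rw [hker]; rfl
  rw [MonoidHom.transferCenterPow_apply, ← map_pow, hπ1, hT] at hk2
  obtain ⟨-, n', hn', hrr⟩ := hk2
  refine ⟨n * (Subgroup.center (G ⧸ T)).index * n', ?_, ?_⟩
  · exact Nat.mul_pos (Nat.mul_pos hn (Nat.pos_of_ne_zero hidx)) hn'
  · rw [pow_mul, pow_mul]
    exact hrr

theorem tor_R (G : Type) [Group G] (hL : LocNil G) (ht : ∀ g : G, ∃ n : ℕ, 0 < n ∧ g ^ n ∈ commutator G)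
    (R : Subgroup G) (hRn : R.Normal) (hRi : R.index ≠ 0) (r : G) (hr : r ∈ R) :
    ∃ n : ℕ, 0 < n ∧ r ^ n ∈ ⁅R, R⁆ :=
  tor_R_aux G hL ht R hRn hRi r hr


end b_tor

section b_comm


open scoped commutatorElement in
theorem comm_eq_aux (R : Type) [Group R]
    (hdiv : ∀ n : ℕ, 0 < n → ∀ r : R, ∃ c : R, ∃ d ∈ commutator R, r = c ^ n * d)
    (htor : ∀ r : R, ∃ n : ℕ, 0 < n ∧ r ^ n ∈ commutator R) :
    commutator R ≤ ⁅commutator R, (⊤ : Subgroup R)⁆ := by
  set K : Subgroup R := ⁅commutator R, (⊤ : Subgroup R)⁆ with hK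
  have hKn : K.Normal := by rw [hK]; infer_instance
  have hcen : ∀ z ∈ commutator R, ∀ g : R,
      Commute (QuotientGroup.mk' K z) (QuotientGroup.mk' K g) := by
    intro z hz g
    have h1 : ⁅z, g⁆ ∈ K := Subgroup.commutator_mem_commutator hz (Subgroup.mem_top g)
    rw [← commutatorElement_eq_one_iff_commute, ← map_commutatorElement]
    exact (QuotientGroup.eq_one_iff _).mpr h1
  rw [commutator_def, Subgroup.commutator_le]
  intro a _ b _
  obtain ⟨n, hn, han⟩ := htor a
  obtain ⟨c, d, hd, rfl⟩ := hdiv n hn b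
  rw [← QuotientGroup.eq_one_iff (N := K)]
  change QuotientGroup.mk' K ⁅a, c ^ n * d⁆ = 1
  rw [map_commutatorElement, commutatorElement_eq_one_iff_commute, map_mul, map_pow]
  set A := QuotientGroup.mk' K a with hA
  set C := QuotientGroup.mk' K c with hC
  have hz : ∀ g : R, Commute ⁅A, C⁆ (QuotientGroup.mk' K g) := by
    intro g
    rw [hA, hC, ← map_commutatorElement]
    exact hcen _ (Subgroup.commutator_mem_commutator (Subgroup.mem_top a) (Subgroup.mem_top c)) g
  have hAn : Commute (A ^ n) C := by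
    have := hcen _ han c
    rwa [map_pow] at this
  have hAC : A * C = ⁅A, C⁆ * C * A := by
    rw [commutatorElement_def]; group
  have hCA : C * A = (⁅A, C⁆⁻¹ * A) * C := by
    rw [mul_assoc, hAC]; group
  have s2 : SemiconjBy C A (⁅A, C⁆⁻¹ * A) := hCA
  have s3 := s2.pow_right n
  have hzA : Commute ⁅A, C⁆⁻¹ A := (hz a).inv_left
  rw [hzA.mul_pow] at s3
  have hz1 : ⁅A, C⁆⁻¹ ^ n = 1 := by
    have h1 : C * A ^ n = ⁅A, C⁆⁻¹ ^ n * A ^ n * C := s3
    rw [← hAn.eq, mul_assoc] at h1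
    exact (right_eq_mul.mp h1)
  have hz2 : ⁅A, C⁆ ^ n = 1 := by
    rw [inv_pow] at hz1
    exact inv_eq_one.mp hz1
  have s1 : SemiconjBy A C (⁅A, C⁆ * C) := hAC
  have s4 := s1.pow_right n
  rw [(hz c).mul_pow, hz2, one_mul] at s4
  have h5 : Commute A (C ^ n) := s4
  exact h5.mul_right ((hcen d hd a).symm)

theorem comm_eq (R : Type) [Group R]
    (hdiv : ∀ n : ℕ, 0 < n → ∀ r : R, ∃ c : R, ∃ d ∈ commutator R, r = c ^ n * d)
    (htor : ∀ r : R, ∃ n : ℕ, 0 < n ∧ r ^ n ∈ commutator R) :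
    commutator R ≤ ⁅commutator R, (⊤ : Subgroup R)⁆ :=
  comm_eq_aux R hdiv htor


end b_comm
section tail
open scoped commutatorElement

theorem A1full (G : Type) [Group G] (hL : LocNil G) (hW : WeakMaxN G) (hZ : Subgroup.center G = ⊥)
    (A : Subgroup G) (hA : A.Normal) (hab : ∀ a ∈ A, ∀ b ∈ A, a * b = b * a) (hne : A ≠ ⊥) :
    ∃ C : Subgroup G, ∃ _ : C.Normal, A ≤ C ∧ C ≠ ⊤ ∧ Subgroup.center (G ⧸ C) = ⊥ := by
  refine A1 G hZ A hA hab ?_
  intro hcent
  exact chainA G hW A hA hne (fun ψ h1 h2 =>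
    stepA G hL (fun F hF hf => finite_normal G hL hZ F hF hf) A hA hab hcent ψ h1 h2)

theorem A2full (G : Type) [Group G] [Nontrivial G] (hL : LocNil G) (hW : WeakMaxN G)
    (hZ : Subgroup.center G = ⊥) :
    ∃ N : Subgroup G, ∃ _ : N.Normal, N ≠ ⊤ ∧ Subgroup.center (G ⧸ N) = ⊥ ∧
      ∀ A : Subgroup (G ⧸ N), A.Normal → (∀ a ∈ A, ∀ b ∈ A, a * b = b * a) → A = ⊥ :=
  A2 (fun G _ h1 h2 N _ => ⟨locnil_quot G h1 N, wmn_quot G h2 N⟩)
    (fun G _ h1 h2 h3 A h4 h5 h6 => A1full G h1 h2 h3 A h4 h5 h6)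
    (fun G _ h1 h2 F h3 h4 => finite_normal G h1 h2 F h3 h4) G hL hW hZ

theorem B_main (G : Type) [Group G] (hL : LocNil G) (hW : WeakMaxN G)
    (ht : ∀ g : G, ∃ n : ℕ, 0 < n ∧ g ^ n ∈ commutator G) :
    ∃ R : Subgroup G, R.Normal ∧ R.index ≠ 0 ∧ ∀ a ∈ R, ∀ b ∈ R, a * b = b * a := by
  obtain ⟨R, hRn, hRi, hR⟩ := exists_R G hL ht
    (exists_M0 (fun G _ h N _ => wmn_quot G h N) (fun B _ h1 h2 h3 => rf_torsion_finite B h1 h2 h3) G hW ht)
    (fun Q _ h1 H h2 => nilp_gen Q h1 H h2) (fun Q _ c h1 e h2 => exponent_nilp Q c h1 e h2)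
    (fun K _ h1 h2 h3 => fg_torsion_finite K h1 h2 h3)
  have hnf : ∀ H : Subgroup R, H.index ≠ 0 → H = ⊤ := fun H hH => no_fi G R hRi hR H hH
  have hmap : (commutator R).map R.subtype = ⁅R, R⁆ := Subgroup.map_subtype_commutator R
  have hcomm : commutator R ≤ ⁅commutator R, (⊤ : Subgroup R)⁆ := by
    refine comm_eq R (fun n hn r => div_comm R hnf n hn r) (fun r => ?_)
    obtain ⟨n, hn, h⟩ := tor_R G hL ht R hRn hRi r r.2
    refine ⟨n, hn, ?_⟩
    rw [← hmap] at h
    obtain ⟨x, hx, hxr⟩ := h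
    have : x = r ^ n := by
      apply Subtype.ext
      simpa using hxr
    rwa [this] at hx
  have hY : ⁅R, R⁆ ≤ ⁅⁅R, R⁆, R⁆ := by
    have h1 := Subgroup.map_mono (f := R.subtype) hcomm
    rw [Subgroup.map_commutator, hmap] at h1
    have h2 : (⊤ : Subgroup R).map R.subtype = R := by
      rw [← MonoidHom.range_eq_map]; exact R.range_subtype
    rwa [h2] at h1
  have hYn : (⁅R, R⁆ : Subgroup G).Normal := Subgroup.commutator_normal R R
  obtain ⟨s, hs, hfin⟩ := exists_nfg G hW ⁅R, R⁆ hYn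
  have hX1 : Subgroup.normalClosure (s : Set G) ≤ ⁅R, R⁆ := Subgroup.normalClosure_le_normal hs
  have hX2 : ⁅⁅R, R⁆, R⁆ ≤ Subgroup.normalClosure (s : Set G) := by
    rw [Subgroup.commutator_le]
    intro y hy r hr
    have h1 := section_central G (Subgroup.normalClosure (s : Set G))
      (Subgroup.normalClosure (s : Set G) ⊔ Subgroup.normalClosure {y}) inferInstance inferInstance
      le_sup_left (hfin y hy) R hR y
      ((le_sup_right : _ ≤ Subgroup.normalClosure (s : Set G) ⊔ Subgroup.normalClosure {y})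
        (Subgroup.subset_normalClosure (Set.mem_singleton y))) r hr
    simpa [commutatorElement_def] using h1
  have hX3 : ⁅R, R⁆ ≤ Subgroup.normalClosure (s : Set G) := hY.trans hX2
  have hX4 : Subgroup.normalClosure (s : Set G) ≤ ⁅Subgroup.normalClosure (s : Set G), (⊤ : Subgroup G)⁆ :=
    hX1.trans (hY.trans (Subgroup.commutator_mono hX3 le_top))
  have hbot := nfg_comm G hL s hX4
  have hRR : ⁅R, R⁆ = ⊥ := by
    rw [eq_bot_iff, ← hbot]; exact hX3
  refine ⟨R, hRn, hRi, ?_⟩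
  intro a ha b hb
  have h1 : ⁅a, b⁆ ∈ (⁅R, R⁆ : Subgroup G) := Subgroup.commutator_mem_commutator ha hb
  rw [hRR, Subgroup.mem_bot] at h1
  exact commutatorElement_eq_one_iff_mul_comm.mp h1

theorem tor_quot (G : Type) [Group G] (ht : ∀ g : G, ∃ n : ℕ, 0 < n ∧ g ^ n ∈ commutator G)
    (N : Subgroup G) [N.Normal] : ∀ g : G ⧸ N, ∃ n : ℕ, 0 < n ∧ g ^ n ∈ commutator (G ⧸ N) := by
  intro g
  obtain ⟨a, rfl⟩ := QuotientGroup.mk'_surjective N g
  obtain ⟨n, hn, h⟩ := ht a
  refine ⟨n, hn, ?_⟩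
  rw [← map_pow]
  have h1 : (commutator G).map (QuotientGroup.mk' N) ≤ commutator (G ⧸ N) := by
    rw [commutator_def, Subgroup.map_commutator]
    exact Subgroup.commutator_mono le_top le_top
  exact h1 ⟨_, h, rfl⟩

theorem B_center (G : Type) [Group G] [Nontrivial G] (hL : LocNil G) (hW : WeakMaxN G)
    (ht : ∀ g : G, ∃ n : ℕ, 0 < n ∧ g ^ n ∈ commutator G) : Subgroup.center G ≠ ⊥ := by
  intro hZ
  obtain ⟨N, hN, hNt, hZN, hab⟩ := A2full G hL hW hZ
  obtain ⟨R, hRn, hRi, hRab⟩ := B_main (G ⧸ N) (locnil_quot G hL N) (wmn_quot G hW N) (tor_quot G ht N)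
  have hRb := hab R hRn hRab
  rw [hRb, Subgroup.index_bot] at hRi
  have hfin : Finite (G ⧸ N) := Nat.finite_of_card_ne_zero hRi
  have h1 := finite_normal (G ⧸ N) (locnil_quot G hL N) hZN ⊤ inferInstance inferInstance
  have h2 : Subsingleton (G ⧸ N) := by
    refine ⟨fun a b => ?_⟩
    have ha : a ∈ (⊤ : Subgroup (G ⧸ N)) := Subgroup.mem_top a
    have hb : b ∈ (⊤ : Subgroup (G ⧸ N)) := Subgroup.mem_top b
    rw [h1, Subgroup.mem_bot] at ha hb
    rw [ha, hb]
  exact hNt (QuotientGroup.subgroup_eq_top_of_subsingleton N h2)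

theorem sol_abelian (H : Type) [Group H] [Nontrivial H] (hs : Group.IsSolvable H) :
    ∃ A : Subgroup H, A.Normal ∧ A ≠ ⊥ ∧ ∀ a ∈ A, ∀ b ∈ A, a * b = b * a := by
  classical
  have hex : ∃ n, derivedSeries H n = ⊥ := (isSolvable_def H).mp hs
  set n := Nat.find hex with hn
  have hnb : derivedSeries H n = ⊥ := Nat.find_spec hex
  have hn0 : n ≠ 0 := by
    intro h0
    rw [h0, derivedSeries_zero] at hnb
    exact top_ne_bot hnb
  obtain ⟨m, hm⟩ := Nat.exists_eq_succ_of_ne_zero hn0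
  refine ⟨derivedSeries H m, derivedSeries_normal H m, ?_, ?_⟩
  · intro h
    have := Nat.find_min' hex h
    omega
  · intro a ha b hb
    have h1 : ⁅a, b⁆ ∈ derivedSeries H n := by
      rw [hm, Nat.succ_eq_add_one, derivedSeries_succ]
      exact Subgroup.commutator_mem_commutator ha hb
    rw [hnb, Subgroup.mem_bot] at h1
    exact commutatorElement_eq_one_iff_mul_comm.mp h1

theorem A_center (G : Type) [Group G] [Nontrivial G] (hL : LocNil G) (hW : WeakMaxN G)
    (hab : ∀ N : Subgroup G, ∀ _ : N.Normal, N ≠ ⊤ → ∃ A : Subgroup (G ⧸ N), A.Normal ∧ A ≠ ⊥ ∧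
      ∀ a ∈ A, ∀ b ∈ A, a * b = b * a) : Subgroup.center G ≠ ⊥ := by
  intro hZ
  obtain ⟨N, hN, hNt, hZN, hab2⟩ := A2full G hL hW hZ
  obtain ⟨A, h1, h2, h3⟩ := hab N hN hNt
  exact h2 (hab2 A h1 h3)

theorem sol_center (G : Type) [Group G] [Nontrivial G] (hL : LocNil G) (hW : WeakMaxN G)
    (hs : Group.IsSolvable G) : Subgroup.center G ≠ ⊥ := by
  refine A_center G hL hW (fun N hN hNt => ?_)
  have h1 : Nontrivial (G ⧸ N) := QuotientGroup.nontrivial_iff.mpr hNt
  have h2 : Group.IsSolvable (G ⧸ N) := solvable_of_surjective (QuotientGroup.mk'_surjective N)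
  exact sol_abelian (G ⧸ N) h2

theorem reduction (G : Type) [Group G] [Nontrivial G] (hL : LocNil G) (hW : WeakMaxN G)
    (hZ : Subgroup.center G = ⊥) :
    ∃ N : Subgroup G, ∃ _ : N.Normal, Nontrivial (G ⧸ N) ∧ LocNil (G ⧸ N) ∧ WeakMaxN (G ⧸ N) ∧
      Subgroup.center (G ⧸ N) = ⊥ ∧
      (∀ A : Subgroup (G ⧸ N), A.Normal → (∀ a ∈ A, ∀ b ∈ A, a * b = b * a) → A = ⊥) ∧
      ∃ h : G ⧸ N, ∀ n : ℕ, 0 < n → h ^ n ∉ commutator (G ⧸ N) := by
  obtain ⟨N, hN, hNt, hZN, hab⟩ := A2full G hL hW hZ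
  have h1 : Nontrivial (G ⧸ N) := QuotientGroup.nontrivial_iff.mpr hNt
  refine ⟨N, hN, h1, locnil_quot G hL N, wmn_quot G hW N, hZN, hab, ?_⟩
  by_contra hcon
  push Not at hcon
  exact B_center (G ⧸ N) (locnil_quot G hL N) (wmn_quot G hW N) hcon hZN

end tail

end Pool.Agent.Helper128.WMN
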